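import Mathlib

/-!
Distributions on `ℤ / m`: definitions.
-/

set_option autoImplicit false

namespace Pool.Agent.J4.H17.KE

open Finset

/-- distributions -/
def Dst {m : ℕ} (c : ZMod m → ℤ) : Prop :=
  ∀ q d : ℕ, q.Prime → q * d = m → ∀ a,
    ∑ i ∈ range q, c (a + (i : ZMod m) * (d : ZMod m)) = c ((q : ZMod m) * a)

/-- the projection of `ℤ / m` to `ℤ / d` (for `d ∣ m`) -/
def pr (d : ℕ) {m : ℕ} (x : ZMod m) : ZMod d := ((x.val : ℕ) : ZMod d)

/-- the order is divisible by all primes of the modulus -/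
def Full {d : ℕ} (x : ZMod d) : Prop := ∀ r ∈ d.primeFactors, r ∣ addOrderOf x

/-- the modulus divided by its radical -/
def core (d : ℕ) : ℕ := d / ∏ r ∈ d.primeFactors, r

/-- the test function of a unit `z` and units `w r` -/
def tst {d : ℕ} (w : ℕ → ZMod d) (z x : ZMod d) : ℤ :=
  ∑ e ∈ (core d).divisors, ∑ T ∈ d.primeFactors.powerset,
    (-1) ^ T.card * (if (e : ZMod d) * ((∏ r ∈ T, w r) * z) = x then 1 else 0)

/-- the residues `± p ^ j` modulo `n` -/
def sp (p n : ℕ) : Set (ZMod n) := {x | ∃ j : ℕ, x = (p : ZMod n) ^ j ∨ x = -(p : ZMod n) ^ j}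

end Pool.Agent.J4.H17.KE
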