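import Pool.Agent.J4.H17.KE.Defs

/-! Project KE (helper17), piece EXT: extension of distributions to coprime multiples of the level, from the case of prime
powers (`ext_prime`, piece EXT1, as the hypothesis `ExtPrime`). -/

set_option autoImplicit false

namespace Pool.Agent.J4.H17.KE

open Finset

namespace Ext

lemma pr_natCast {d k : ℕ} (h : d ∣ k) (n : ℕ) : pr d ((n : ℕ) : ZMod k) = (n : ZMod d) := by
  unfold pr
  rw [ZMod.val_natCast, ZMod.natCast_eq_natCast_iff]
  exact (Nat.mod_modEq n k).of_dvd h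

lemma pr_pr {d k m : ℕ} (h : d ∣ k) (x : ZMod m) : pr d (pr k x) = pr d x := by
  have e : pr k x = ((x.val : ℕ) : ZMod k) := rfl
  rw [e, pr_natCast h]
  rfl

lemma pr_mul {d k m : ℕ} (h : d ∣ k) (u : ℕ) (x : ZMod m) :
    pr d ((u : ZMod k) * pr k x) = (u : ZMod d) * pr d x := by
  have e : (u : ZMod k) * pr k x = ((u * x.val : ℕ) : ZMod k) := by
    unfold pr
    push_cast
    rfl
  rw [e, pr_natCast h, Nat.cast_mul]
  rfl

lemma pr_zero_of_dvd {d k m : ℕ} (h : d ∣ k) {x : ZMod m} (hx : pr k x = 0) : pr d x = 0 := by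
  unfold pr at hx ⊢
  rw [ZMod.natCast_eq_zero_iff] at hx ⊢
  exact h.trans hx

lemma pr_self {m : ℕ} [NeZero m] (x : ZMod m) : pr m x = x := by
  unfold pr
  exact ZMod.natCast_zmod_val x

end Ext

/-- the statement `ext_prime` -/
def ExtPrime : Prop := ∀ {k r e m : ℕ}, r.Prime → 0 < e → ¬ r ∣ k → k * r ^ e = m → 0 < k → ∀ f : ZMod k → ℤ, Dst f →
    ∃ (c : ZMod m → ℤ) (C : ℤ), C ≠ 0 ∧ Dst c ∧
      (∀ x : ZMod m, pr (r ^ e) x = 0 → c x = C * f (pr k x)) ∧
      ∀ x : ZMod m, (∀ u : ℕ, u.Coprime k → f ((u : ZMod k) * pr k x) = 0) → c x = 0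

open Ext in
theorem ext_all_of (hP : ExtPrime) {d E m : ℕ} (hm : d * E = m) (hc : d.Coprime E) (hm0 : 0 < m) (f : ZMod d → ℤ)
    (hf : Dst f) :
    ∃ (c : ZMod m → ℤ) (C : ℤ), C ≠ 0 ∧ Dst c ∧
      (∀ x : ZMod m, pr E x = 0 → c x = C * f (pr d x)) ∧
      ∀ x : ZMod m, (∀ u : ℕ, u.Coprime d → f ((u : ZMod d) * pr d x) = 0) → c x = 0 := by
  revert d m
  induction E using Nat.recOnPosPrimePosCoprime with
  | prime_pow r e hr he =>
    intro d m hm hc hm0 f hf
    have hd : 0 < d := Nat.pos_of_ne_zero fun h => by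
      rw [h, zero_mul] at hm
      omega
    refine hP hr he (fun h => ?_) hm hd f hf
    have h1 : r ∣ Nat.gcd d (r ^ e) := Nat.dvd_gcd h (dvd_pow_self r he.ne')
    rw [hc] at h1
    exact hr.one_lt.ne' (Nat.dvd_one.1 h1)
  | zero =>
    intro d m hm hc hm0
    rw [mul_zero] at hm
    omega
  | one =>
    intro d m hm hc hm0 f hf
    rw [mul_one] at hm
    subst hm
    haveI : NeZero d := ⟨hm0.ne'⟩
    refine ⟨f, 1, one_ne_zero, hf, fun x _ => ?_, fun x hx => ?_⟩
    · rw [one_mul, pr_self]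
    · have := hx 1 (Nat.coprime_one_left d)
      rwa [Nat.cast_one, one_mul, pr_self] at this
  | coprime a b ha hb hab iha ihb =>
    intro d m hm hc hm0 f hf
    have hd : 0 < d := Nat.pos_of_ne_zero fun h => by
      rw [h, zero_mul] at hm
      omega
    have hca : d.Coprime a := Nat.Coprime.coprime_mul_right_right hc
    have hcb : d.Coprime b := Nat.Coprime.coprime_mul_left_right hc
    obtain ⟨c1, C1, h1, h2, h3, h4⟩ := iha (m := d * a) rfl hca (Nat.mul_pos hd (by omega)) f hf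
    obtain ⟨c2, C2, g1, g2, g3, g4⟩ := ihb (d := d * a) (m := m) (by rw [← hm, mul_assoc])
      (Nat.Coprime.mul_left hcb hab) hm0 c1 h2
    refine ⟨c2, C2 * C1, mul_ne_zero g1 h1, g2, fun x hx => ?_, fun x hx => ?_⟩
    · rw [g3 x (pr_zero_of_dvd (Dvd.intro_left a rfl) hx), h3 _ ?_, pr_pr (Dvd.intro a rfl), mul_assoc]
      rw [pr_pr (Dvd.intro_left d rfl)]
      exact pr_zero_of_dvd (Dvd.intro b rfl) hx
    · refine g4 x fun u hu => ?_
      have hud : u.Coprime d := Nat.Coprime.coprime_mul_right_right hu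
      refine h4 _ fun v hv => ?_
      rw [pr_mul (Dvd.intro a rfl), ← mul_assoc, ← Nat.cast_mul]
      exact hx (v * u) (Nat.Coprime.mul_left hv hud)

end Pool.Agent.J4.H17.KE
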