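import Pool.Agent.J4.H17.KE.Defs

/-!
# Extension of distributions from level `k` to level `k * r ^ e` (helper81)
-/

set_option autoImplicit false

namespace Pool.Agent.J4.H17.KE.Ext1

open Finset

/-- the explicit formula -/
def c0 (r e : ℕ) (F b : ℕ → ℤ) : ℤ :=
  ((r : ℤ) - 1) * (r : ℤ) ^ e * b 0 * F 0 +
    ∑ j ∈ range (e + 1), (r : ℤ) ^ (e - j) * ((b (j + 1) - b j) * (F (j + 1) - F j))

theorem c0_sum_F (r e q : ℕ) (F : ℕ → ℕ → ℤ) (b : ℕ → ℤ) :
    ∑ i ∈ range q, c0 r e (F i) b = c0 r e (fun j => ∑ i ∈ range q, F i j) b := by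
  unfold c0
  rw [sum_add_distrib, sum_comm, ← mul_sum]
  congr 1
  refine sum_congr rfl fun j _ => ?_
  rw [← mul_sum, ← mul_sum, sum_sub_distrib]

theorem c0_sum_b (r e q : ℕ) (F : ℕ → ℤ) (b : ℕ → ℕ → ℤ) :
    ∑ i ∈ range q, c0 r e F (b i) = c0 r e F (fun j => ∑ i ∈ range q, b i j) := by
  unfold c0
  rw [sum_add_distrib, sum_comm, ← sum_mul, ← mul_sum]
  congr 1
  refine sum_congr rfl fun j _ => ?_
  rw [← mul_sum, ← sum_mul, sum_sub_distrib]

theorem c0_shift (r e : ℕ) (F b B : ℕ → ℤ) (h0 : B 0 = b 1) (hB : ∀ j, B (j + 1) = r * b (j + 1))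
    (h1 : b (e + 1) = 1) (h2 : b (e + 2) = 1) :
    c0 r e F B = c0 r e (fun j => F (j + 1)) (fun j => b (j + 1)) := by
  unfold c0
  rw [sum_range_succ', sum_range_succ (fun j => (r : ℤ) ^ (e - j) *
    ((b (j + 1 + 1) - b (j + 1)) * (F (j + 1 + 1) - F (j + 1))))]
  have h3 : ∑ j ∈ range e, (r : ℤ) ^ (e - (j + 1)) *
      ((B (j + 1 + 1) - B (j + 1)) * (F (j + 1 + 1) - F (j + 1))) =
      ∑ j ∈ range e, (r : ℤ) ^ (e - j) *
        ((b (j + 1 + 1) - b (j + 1)) * (F (j + 1 + 1) - F (j + 1))) := by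
    refine sum_congr rfl fun j hj => ?_
    have h4 : e - j = e - (j + 1) + 1 := by
      have := mem_range.1 hj
      omega
    rw [hB, hB, h4, pow_succ]
    ring
  rw [h3, h0, hB 0, h1, show e + 1 + 1 = e + 2 from rfl, h2]
  simp only [Nat.sub_zero, zero_add, sub_self, zero_mul, mul_zero, add_zero]
  ring

/-- sums over a full period are invariant under multiplication by a unit -/
theorem sum_period (q s : ℕ) (hq : 0 < q) (hs : s.Coprime q) (g : ℕ → ℤ)
    (hg : ∀ i, g (i % q) = g i) : ∑ i ∈ range q, g (i * s) = ∑ i ∈ range q, g i := by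
  have hinj : Set.InjOn (fun i => i * s % q) (range q : Finset ℕ) := by
    intro i hi j hj hij
    have hi' := mem_range.1 (mem_coe.1 hi)
    have hj' := mem_range.1 (mem_coe.1 hj)
    have h1 : i * s ≡ j * s [MOD q] := hij
    have h2 : i ≡ j [MOD q] := Nat.ModEq.cancel_right_of_coprime hs.symm h1
    exact Nat.ModEq.eq_of_lt_of_lt h2 hi' hj'
  have hmaps : Set.MapsTo (fun i => i * s % q) (range q : Finset ℕ) (range q : Finset ℕ) := by
    intro i _
    exact mem_coe.2 (mem_range.2 (Nat.mod_lt _ hq))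
  refine sum_nbij (fun i => i * s % q) (fun i hi => hmaps hi) hinj
    (surjOn_of_injOn_of_card_le _ hmaps hinj le_rfl) ?_
  intro i _
  exact (hg _).symm

theorem pr_eq {d m : ℕ} [NeZero m] (h : d ∣ m) (x : ZMod m) :
    pr d x = ZMod.castHom h (ZMod d) x := by
  rw [ZMod.castHom_apply, ← ZMod.natCast_val]
  rfl

/-- the indicator function of `r ^ j * a = 0` -/
def bt (r : ℕ) {n : ℕ} (a : ZMod n) (j : ℕ) : ℤ := if (r : ZMod n) ^ j * a = 0 then 1 else 0

theorem bt_unit (r q : ℕ) {n : ℕ} (hq : q.Coprime n) (a : ZMod n) (j : ℕ) :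
    bt r ((q : ZMod n) * a) j = bt r a j := by
  unfold bt
  have hu : IsUnit (q : ZMod n) := (ZMod.isUnit_iff_coprime q n).2 hq
  have h : (r : ZMod n) ^ j * ((q : ZMod n) * a) = 0 ↔ (r : ZMod n) ^ j * a = 0 := by
    rw [mul_left_comm]
    exact hu.mul_right_eq_zero
  simp only [h]

theorem bt_mul (r : ℕ) {n : ℕ} (a : ZMod n) (j : ℕ) :
    bt r ((r : ZMod n) * a) j = bt r a (j + 1) := by
  unfold bt
  rw [← mul_assoc, ← pow_succ]

theorem r_pow (r e : ℕ) : ((r : ZMod (r ^ (e + 1)))) ^ (e + 1) = 0 := by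
  rw [← Nat.cast_pow]
  exact ZMod.natCast_self _

theorem bt_top (r e : ℕ) (a : ZMod (r ^ (e + 1))) (j : ℕ) (hj : e + 1 ≤ j) : bt r a j = 1 := by
  unfold bt
  rw [if_pos]
  obtain ⟨t, rfl⟩ := Nat.exists_eq_add_of_le hj
  have h : (r : ZMod (r ^ (e + 1))) ^ (e + 1 + t) = 0 := by
    have h1 := pow_add (r : ZMod (r ^ (e + 1))) (e + 1) t
    rw [h1, r_pow, zero_mul]
  rw [h, zero_mul]

theorem bt_add (r e k i : ℕ) (a : ZMod (r ^ (e + 1))) (j : ℕ) :
    bt r (a + (i : ZMod (r ^ (e + 1))) * ((k * r ^ e : ℕ) : ZMod (r ^ (e + 1)))) (j + 1) =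
      bt r a (j + 1) := by
  unfold bt
  have h : (r : ZMod (r ^ (e + 1))) ^ (j + 1) *
      (a + (i : ZMod (r ^ (e + 1))) * ((k * r ^ e : ℕ) : ZMod (r ^ (e + 1)))) =
      (r : ZMod (r ^ (e + 1))) ^ (j + 1) * a := by
    have h1 : (r : ZMod (r ^ (e + 1))) ^ (j + 1) *
        (a + (i : ZMod (r ^ (e + 1))) * ((k * r ^ e : ℕ) : ZMod (r ^ (e + 1)))) =
        (r : ZMod (r ^ (e + 1))) ^ (j + 1) * a +
          (r : ZMod (r ^ (e + 1))) ^ (e + 1) * ((r : ZMod (r ^ (e + 1))) ^ j * i * k) := by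
      push_cast
      ring
    rw [h1, r_pow, zero_mul, add_zero]
  rw [h]

theorem bt_sum (r e k : ℕ) (hr : r.Prime) (hrk : ¬ r ∣ k) (a : ZMod (r ^ (e + 1))) :
    ∑ i ∈ range r, bt r (a + (i : ZMod (r ^ (e + 1))) *
      ((k * r ^ e : ℕ) : ZMod (r ^ (e + 1)))) 0 = bt r a 1 := by
  by_cases h : (r : ZMod (r ^ (e + 1))) ^ 1 * a = 0
  · have : Fact r.Prime := ⟨hr⟩
    have : NeZero (r ^ (e + 1)) := ⟨(pow_pos hr.pos _).ne'⟩
    have h1 : bt r a 1 = 1 := by
      unfold bt
      rw [if_pos h]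
    rw [h1]
    -- `a = r ^ e * t`
    obtain ⟨t, ht⟩ : ∃ t : ℕ, a = ((r ^ e * t : ℕ) : ZMod (r ^ (e + 1))) := by
      have h2 : ((r * a.val : ℕ) : ZMod (r ^ (e + 1))) = 0 := by
        rw [Nat.cast_mul, ZMod.natCast_zmod_val, ← pow_one (r : ZMod (r ^ (e + 1)))]
        exact h
      rw [ZMod.natCast_eq_zero_iff] at h2
      have h2' : r * r ^ e ∣ r * a.val := by
        have h0 : r * r ^ e = r ^ (e + 1) := by
          rw [pow_succ, mul_comm]
        rw [h0]
        exact h2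
      obtain ⟨t, ht⟩ := Nat.dvd_of_mul_dvd_mul_left hr.pos h2'
      refine ⟨t, ?_⟩
      rw [← ht, ZMod.natCast_zmod_val]
    have hk0 : (k : ZMod r) ≠ 0 := by
      rw [Ne, ZMod.natCast_eq_zero_iff]
      exact hrk
    have h3 : ∀ i ∈ range r, bt r (a + (i : ZMod (r ^ (e + 1))) *
        ((k * r ^ e : ℕ) : ZMod (r ^ (e + 1)))) 0 =
        if i = (-(t : ZMod r) * (k : ZMod r)⁻¹).val then 1 else 0 := by
      intro i hi
      have hi' := mem_range.1 hi
      unfold bt
      have h4 : (r : ZMod (r ^ (e + 1))) ^ 0 * (a + (i : ZMod (r ^ (e + 1))) *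
          ((k * r ^ e : ℕ) : ZMod (r ^ (e + 1)))) = 0 ↔
          i = (-(t : ZMod r) * (k : ZMod r)⁻¹).val := by
        have h5 : (r : ZMod (r ^ (e + 1))) ^ 0 * (a + (i : ZMod (r ^ (e + 1))) *
          ((k * r ^ e : ℕ) : ZMod (r ^ (e + 1)))) =
            ((r ^ e * (t + i * k) : ℕ) : ZMod (r ^ (e + 1))) := by
          rw [ht]
          push_cast
          ring
        rw [h5, ZMod.natCast_eq_zero_iff, pow_succ,
          Nat.mul_dvd_mul_iff_left (pow_pos hr.pos e), ← ZMod.natCast_eq_zero_iff]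
        push_cast
        constructor
        · intro h6
          have h7 : (i : ZMod r) = -(t : ZMod r) * (k : ZMod r)⁻¹ := by
            rw [eq_mul_inv_iff_mul_eq₀ hk0]
            exact eq_neg_of_add_eq_zero_right h6
          rw [← h7, ZMod.val_natCast_of_lt hi']
        · intro h6
          have h7 : (i : ZMod r) = -(t : ZMod r) * (k : ZMod r)⁻¹ := by
            rw [h6, ZMod.natCast_zmod_val]
          rw [h7, inv_mul_cancel_right₀ hk0, add_neg_cancel]
      simp only [h4]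
    rw [sum_congr rfl h3, sum_ite_eq', if_pos]
    exact mem_range.2 (ZMod.val_lt _)
  · have h1 : bt r a 1 = 0 := by
      unfold bt
      rw [if_neg h]
    rw [h1]
    refine sum_eq_zero fun i _ => ?_
    have h2 := bt_add r e k i a 0
    have h3 : bt r (a + (i : ZMod (r ^ (e + 1))) *
        ((k * r ^ e : ℕ) : ZMod (r ^ (e + 1)))) (0 + 1) = 0 := by
      rw [h2]
      exact h1
    unfold bt at h3 ⊢
    rw [if_neg]
    intro h4
    rw [pow_zero, one_mul] at h4
    rw [h4, mul_zero, if_pos rfl] at h3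
    exact one_ne_zero h3

end Pool.Agent.J4.H17.KE.Ext1

namespace Pool.Agent.J4.H17.KE

open Finset Ext1

theorem ext_prime {k r e m : ℕ} (hr : r.Prime) (he : 0 < e) (hrk : ¬ r ∣ k) (hm : k * r ^ e = m)
    (hk : 0 < k) (f : ZMod k → ℤ) (hf : Dst f) :
    ∃ (c : ZMod m → ℤ) (C : ℤ), C ≠ 0 ∧ Dst c ∧
      (∀ x : ZMod m, pr (r ^ e) x = 0 → c x = C * f (pr k x)) ∧
      ∀ x : ZMod m, (∀ u : ℕ, u.Coprime k → f ((u : ZMod k) * pr k x) = 0) → c x = 0 := by
  obtain ⟨e, rfl⟩ : ∃ t, e = t + 1 := ⟨e - 1, by omega⟩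
  subst hm
  have : NeZero (k * r ^ (e + 1)) := ⟨(Nat.mul_pos hk (pow_pos hr.pos _)).ne'⟩
  have hd1 : k ∣ k * r ^ (e + 1) := dvd_mul_right _ _
  have hd2 : r ^ (e + 1) ∣ k * r ^ (e + 1) := dvd_mul_left _ _
  refine ⟨fun x => c0 r e (fun j => f ((r : ZMod k) ^ j * pr k x)) (bt r (pr (r ^ (e + 1)) x)),
    ((r : ℤ) - 1) * (r : ℤ) ^ e, ?_, ?_, ?_, ?_⟩
  · have h1 : (1 : ℤ) < r := by exact_mod_cast hr.one_lt
    exact mul_ne_zero (by omega) (pow_ne_zero _ (by omega))
  · intro q d hq hqd x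
    by_cases hqr : q = r
    · -- the prime `r`
      subst hqr
      have hd : d = k * q ^ e := by
        have : q * d = q * (k * q ^ e) := by
          rw [hqd, pow_succ]
          ring
        exact Nat.eq_of_mul_eq_mul_left hq.pos this
      subst hd
      have h1 : ∀ i : ℕ, pr k (x + (i : ZMod (k * q ^ (e + 1))) *
          ((k * q ^ e : ℕ) : ZMod (k * q ^ (e + 1)))) = pr k x := by
        intro i
        rw [pr_eq hd1, pr_eq hd1, map_add, map_mul, map_natCast, map_natCast, Nat.cast_mul,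
          ZMod.natCast_self, zero_mul, mul_zero, add_zero]
      have h2 : ∀ i : ℕ, pr (q ^ (e + 1)) (x + (i : ZMod (k * q ^ (e + 1))) *
          ((k * q ^ e : ℕ) : ZMod (k * q ^ (e + 1)))) = pr (q ^ (e + 1)) x +
          (i : ZMod (q ^ (e + 1))) * ((k * q ^ e : ℕ) : ZMod (q ^ (e + 1))) := by
        intro i
        rw [pr_eq hd2, pr_eq hd2, map_add, map_mul, map_natCast, map_natCast]
      simp only [h1, h2]
      rw [c0_sum_b, c0_shift q e _ (bt q (pr (q ^ (e + 1)) x)) _ (bt_sum q e k hq hrk _)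
        (fun j => by
          simp only [bt_add]
          rw [sum_const, card_range, nsmul_eq_mul])
        (bt_top q e _ _ le_rfl) (bt_top q e _ _ (by omega))]
      have h3 : pr k ((q : ZMod (k * q ^ (e + 1))) * x) = (q : ZMod k) * pr k x := by
        rw [pr_eq hd1, pr_eq hd1, map_mul, map_natCast]
      have h4 : pr (q ^ (e + 1)) ((q : ZMod (k * q ^ (e + 1))) * x) =
          (q : ZMod (q ^ (e + 1))) * pr (q ^ (e + 1)) x := by
        rw [pr_eq hd2, pr_eq hd2, map_mul, map_natCast]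
      have h5 : bt q (pr (q ^ (e + 1)) ((q : ZMod (k * q ^ (e + 1))) * x)) =
          fun j => bt q (pr (q ^ (e + 1)) x) (j + 1) := by
        funext j
        rw [h4, bt_mul]
      rw [h5]
      congr 1
      funext j
      rw [h3, pow_succ, mul_assoc]
    · -- a prime divisor of `k`
      have hqr' : q.Coprime r := (Nat.coprime_primes hq hr).2 hqr
      have hqr2 : q.Coprime (r ^ (e + 1)) := hqr'.pow_right _
      have hqk : q ∣ k := by
        have h1 : q ∣ k * r ^ (e + 1) := ⟨d, hqd.symm⟩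
        exact hqr2.dvd_of_dvd_mul_right h1
      obtain ⟨k', rfl⟩ := hqk
      have hd : d = k' * r ^ (e + 1) := by
        have : q * d = q * (k' * r ^ (e + 1)) := by
          rw [hqd]
          ring
        exact Nat.eq_of_mul_eq_mul_left hq.pos this
      subst hd
      have h1 : ∀ i : ℕ, pr (q * k') (x + (i : ZMod (q * k' * r ^ (e + 1))) *
          ((k' * r ^ (e + 1) : ℕ) : ZMod (q * k' * r ^ (e + 1)))) = pr (q * k') x +
          (i : ZMod (q * k')) * ((k' * r ^ (e + 1) : ℕ) : ZMod (q * k')) := by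
        intro i
        rw [pr_eq hd1, pr_eq hd1, map_add, map_mul, map_natCast, map_natCast]
      have h2 : ∀ i : ℕ, pr (r ^ (e + 1)) (x + (i : ZMod (q * k' * r ^ (e + 1))) *
          ((k' * r ^ (e + 1) : ℕ) : ZMod (q * k' * r ^ (e + 1)))) = pr (r ^ (e + 1)) x := by
        intro i
        rw [pr_eq hd2, pr_eq hd2, map_add, map_mul, map_natCast, map_natCast, Nat.cast_mul,
          ZMod.natCast_self, mul_zero, mul_zero, add_zero]
      simp only [h1, h2]
      rw [c0_sum_F]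
      have h3 : pr (q * k') ((q : ZMod (q * k' * r ^ (e + 1))) * x) =
          (q : ZMod (q * k')) * pr (q * k') x := by
        rw [pr_eq hd1, pr_eq hd1, map_mul, map_natCast]
      have h4 : pr (r ^ (e + 1)) ((q : ZMod (q * k' * r ^ (e + 1))) * x) =
          (q : ZMod (r ^ (e + 1))) * pr (r ^ (e + 1)) x := by
        rw [pr_eq hd2, pr_eq hd2, map_mul, map_natCast]
      have h5 : bt r (pr (r ^ (e + 1)) ((q : ZMod (q * k' * r ^ (e + 1))) * x)) =
          bt r (pr (r ^ (e + 1)) x) := by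
        funext j
        rw [h4, bt_unit r q hqr2]
      rw [h5]
      congr 1
      funext j
      have h6 := hf q k' hq rfl ((r : ZMod (q * k')) ^ j * pr (q * k') x)
      have h7 := sum_period q (r ^ (j + (e + 1))) hq.pos (hqr'.symm.pow_left _)
        (fun i => f ((r : ZMod (q * k')) ^ j * pr (q * k') x + (i : ZMod (q * k')) * (k' : ZMod (q * k'))))
        (fun i => by
          have h8 : ((i : ℕ) : ZMod (q * k')) * (k' : ZMod (q * k')) =
              ((i % q : ℕ) : ZMod (q * k')) * (k' : ZMod (q * k')) := by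
            conv_lhs => rw [← Nat.mod_add_div i q]
            have h9 : ((q * k' : ℕ) : ZMod (q * k')) = 0 := ZMod.natCast_self _
            push_cast at h9 ⊢
            rw [add_mul, mul_right_comm, mul_comm ((q : ZMod (q * k')) * _), h9]
            ring
          rw [h8])
      rw [h6] at h7
      rw [h3, mul_left_comm ((r : ZMod (q * k')) ^ j)]
      rw [← h7]
      refine sum_congr rfl fun i _ => ?_
      congr 1
      push_cast
      ring
  · intro x hx
    have h1 : ∀ j, bt r (pr (r ^ (e + 1)) x) j = 1 := by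
      intro j
      unfold bt
      rw [hx, mul_zero, if_pos rfl]
    unfold c0
    simp only [h1, sub_self, zero_mul, mul_zero, sum_const_zero, add_zero, mul_one, pow_zero,
      one_mul]
  · intro x hx
    have h1 : ∀ j : ℕ, f ((r : ZMod k) ^ j * pr k x) = 0 := by
      intro j
      have := hx (r ^ j) (((Nat.Prime.coprime_iff_not_dvd hr).2 hrk).pow_left j)
      rw [Nat.cast_pow] at this
      exact this
    unfold c0
    simp only [h1, sub_self, mul_zero, sum_const_zero, add_zero]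

end Pool.Agent.J4.H17.KE
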