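import Pool.Agent.J4.H17.KE.Global
import Pool.Agent.J4.H17.KB.Main

/-!
Tate characters with few entries, where `p` and `-1` generate a subgroup of large index modulo every odd
prime factor of the degree.
-/

set_option autoImplicit false
set_option linter.unusedSectionVars false

namespace Pool.Agent.J4.H17.KE

open Finset Pool.Agent.H916R2 Pool.Agent.H916T Pool.Agent.H916Z Pool.Agent.H916Y Pool.Agent.H916Q
  Pool.Agent.J4.H17.KB

variable {p m : ℕ}

/-- `K` times the number of the residues `± p ^ j` modulo `q` is less than `q - 1`, for every odd prime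
`q` dividing `m`: the subgroup generated by `p` and `-1` modulo `q` has an index greater than `K`. -/
def LargeIndex (p m K : ℕ) : Prop :=
  ∀ q : ℕ, q.Prime → q ≠ 2 → q ∣ m → K * (signedPowers p q).ncard < q - 1

lemma Lam_rel [NeZero m] (hp : p.Coprime m) {s : Multiset (ZMod m)} (hs : Rel0 p s)
    (c : ZMod m → ℤ) (hc : KE.Dst c) : Lam p (orderOf (p : ZMod m)) s c = 0 :=
  sum_iod hp hs (sym_iod hp (dst_iff.mp hc))

/-- **The parities, odd degree.** -/
theorem par_odd [NeZero m] (hp : p.Coprime m) (h2 : ¬ 2 ∣ m) {s : Multiset (ZMod m)}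
    (hs : Rel0 p s) {K : ℕ} (hc : Multiset.card s ≤ K) (hL : LargeIndex p m K) {S : Finset ℕ}
    (hD : ¬ Dead p S) : Even (s.countP (Supp S)) := by
  have hodd : Odd m := Nat.not_even_iff_odd.mp fun h => h2 (even_iff_two_dvd.mp h)
  have h := global_odd (p := p) (F := orderOf (p : ZMod m)) hodd hp (order_pos hp)
    (pow_orderOf_eq_one _) (K := K) (fun r hr => hL r (Nat.prime_of_mem_primeFactors hr) (by
      rintro rfl
      exact h2 (Nat.dvd_of_mem_primeFactors hr)) (Nat.dvd_of_mem_primeFactors hr)) s hc
    (Lam_rel hp hs) hD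
  convert h

open scoped Classical in
/-- **The parities, twice an odd degree.** -/
theorem par_two [NeZero m] (hp : p.Coprime m) {d : ℕ} (hd : 2 * d = m) (hd2 : ¬ 2 ∣ d)
    {s : Multiset (ZMod m)}
    (hs : Rel0 p s) {K : ℕ} (hc : Multiset.card s ≤ K) (hL : LargeIndex p m (2 * K)) {S : Finset ℕ}
    (hS : 2 ∉ S) (hD : ¬ Dead p S) : Even (s.countP (Supp S)) := by
  have hm : m ≠ 0 := NeZero.ne m
  have hdpos : 0 < d := by
    rcases Nat.eq_zero_or_pos d with h | h
    · subst h; exact absurd hd.symm hm
    · exact h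
  have hzd : NeZero d := ⟨hdpos.ne'⟩
  have hm2 : d * 2 = m := by rw [mul_comm]; exact hd
  have hm2' : d * 2 ^ 1 = m := by rw [pow_one]; exact hm2
  have hdm : d ∣ m := ⟨2, hm2.symm⟩
  have h2m : 2 ∣ m := ⟨d, hd.symm⟩
  have hcop : d.Coprime 2 := by
    rw [Nat.coprime_comm]
    exact (Nat.Prime.coprime_iff_not_dvd Nat.prime_two).mpr hd2
  have hpd : p.Coprime d := Nat.Coprime.coprime_dvd_right hdm hp
  have hoddd : Odd d := Nat.not_even_iff_odd.mp fun h => hd2 (even_iff_two_dvd.mp h)
  set F := orderOf (p : ZMod m) with hF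
  have hFpos : 0 < F := order_pos hp
  have hpF : (p : ZMod d) ^ F = 1 := by
    have h1 : (p : ZMod m) ^ F = 1 := pow_orderOf_eq_one _
    have h2 := congrArg (ZMod.castHom hdm (ZMod d)) h1
    rwa [map_pow, map_natCast, map_one] at h2
  have hodd_p : p % 2 = 1 := by
    rcases Nat.mod_two_eq_zero_or_one p with h | h
    · exfalso
      have h3 := Nat.dvd_gcd (Nat.dvd_of_mod_eq_zero h) h2m
      rw [hp] at h3
      omega
    · exact h
  -- the residue modulo two
  have hpr2 : ∀ x : ZMod m, pr 2 x = 0 ↔ 2 ∣ x.val := by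
    intro x
    unfold pr
    exact ZMod.natCast_eq_zero_iff _ _
  have hpr2' : ∀ x : ZMod m, pr 2 x ≠ 0 → pr 2 x = 1 := by
    intro x hx
    have h3 : ∀ y : ZMod 2, y ≠ 0 → y = 1 := by decide
    exact h3 _ hx
  set P : ZMod m → Prop := fun a => pr 2 a = 0 with hP
  set s0 := s.filter P with hs0
  set s1 := s.filter (fun a => ¬ P a) with hs1
  have hsplit : s0 + s1 = s := Multiset.filter_add_not P s
  set s'' : Multiset (ZMod d) := s0.map (pr d) + (s1.map (fun a => 2 * pr d a) +
    s1.map (fun a => - pr d a)) with hs''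
  have hcard : Multiset.card s'' ≤ 2 * K := by
    rw [hs'', Multiset.card_add, Multiset.card_add, Multiset.card_map, Multiset.card_map,
      Multiset.card_map]
    have h3 : Multiset.card s0 + Multiset.card s1 = Multiset.card s := by
      rw [← Multiset.card_add, hsplit]
    omega
  have hrel : ∀ f : ZMod d → ℤ, KE.Dst f → Lam p F s'' f = 0 := by
    intro f hf
    obtain ⟨c, C, hC, hcD, hc1, -⟩ := ext_prime (k := d) (r := 2) (e := 1) Nat.prime_two one_pos hd2
      hm2' hdpos f hf
    rw [pow_one] at hc1
    have h1 := Lam_rel hp hs c hcD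
    have hprd0 : pr d (d : ZMod m) = 0 := by
      rw [pr_natCast hdm]; exact ZMod.natCast_self d
    have hodd_c : ∀ x : ZMod m, pr 2 x ≠ 0 → c x = C * (f (2 * pr d x) - f (pr d x)) := by
      intro x hx
      have h3 := hcD 2 d Nat.prime_two hd x
      rw [sum_range_succ, sum_range_one] at h3
      simp only [Nat.cast_zero, zero_mul, add_zero, Nat.cast_one, one_mul] at h3
      have h4 : pr 2 (x + (d : ZMod m)) = 0 := by
        rw [pr_add h2m, pr_natCast h2m, hpr2' x hx]
        have h5 : ((d : ℕ) : ZMod 2) = 1 := by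
          rw [show (1 : ZMod 2) = ((1 : ℕ) : ZMod 2) by simp, ZMod.natCast_eq_natCast_iff]
          show d % 2 = 1 % 2
          omega
        rw [h5]
        decide
      have h5 : pr 2 (((2 : ℕ) : ZMod m) * x) = 0 := by
        rw [pr_mul h2m, pr_natCast h2m]
        have : ((2 : ℕ) : ZMod 2) = 0 := by decide
        rw [this, zero_mul]
      rw [hc1 _ h4, hc1 _ h5, pr_add hdm, hprd0, add_zero, pr_mul hdm, pr_natCast hdm] at h3
      push_cast at h3
      linarith
    have hpow2 : ∀ (j : ℕ) (a : ZMod m), pr 2 ((p : ZMod m) ^ j * a) = pr 2 a := by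
      intro j a
      rw [pr_pow_mul h2m]
      have h5 : (p : ZMod 2) = 1 := by
        rw [show (1 : ZMod 2) = ((1 : ℕ) : ZMod 2) by simp, ZMod.natCast_eq_natCast_iff]
        exact hodd_p
      rw [h5, one_pow, one_mul]
    have hneg2 : ∀ a : ZMod m, pr 2 (-a) = pr 2 a := by
      intro a
      rw [pr_neg h2m]
      have : ∀ y : ZMod 2, -y = y := by decide
      exact this _
    have e0 : Lam p F s0 c = C * Lam p F (s0.map (pr d)) f := by
      unfold Lam
      rw [Multiset.map_map, ← Multiset.sum_map_mul_left]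
      congr 1
      refine Multiset.map_congr rfl fun a ha => ?_
      have ha' : pr 2 a = 0 := (Multiset.mem_filter.mp ha).2
      simp only [Function.comp_apply]
      rw [mul_sum]
      refine sum_congr rfl fun j _ => ?_
      rw [hc1 _ (by rw [hpow2, ha']), hc1 _ (by rw [hneg2, hpow2, ha']), pr_neg hdm, pr_pow_mul hdm]
      ring
    have e1 : Lam p F s1 c = C * (Lam p F (s1.map (fun a => 2 * pr d a)) f +
        Lam p F (s1.map (fun a => - pr d a)) f) := by
      unfold Lam
      rw [Multiset.map_map, Multiset.map_map, ← Multiset.sum_map_add, ← Multiset.sum_map_mul_left]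
      congr 1
      refine Multiset.map_congr rfl fun a ha => ?_
      have ha' : pr 2 a ≠ 0 := (Multiset.mem_filter.mp ha).2
      simp only [Function.comp_apply]
      rw [← sum_add_distrib, mul_sum]
      refine sum_congr rfl fun j _ => ?_
      rw [hodd_c _ (by rw [hpow2]; exact ha'), hodd_c _ (by rw [hneg2, hpow2]; exact ha'), pr_neg hdm,
        pr_pow_mul hdm]
      have a1 : (2 : ZMod d) * ((p : ZMod d) ^ j * pr d a) = (p : ZMod d) ^ j * (2 * pr d a) := by ring
      have a2 : (2 : ZMod d) * -((p : ZMod d) ^ j * pr d a) = -((p : ZMod d) ^ j * (2 * pr d a)) := by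
        ring
      have a3 : (p : ZMod d) ^ j * -pr d a = -((p : ZMod d) ^ j * pr d a) := by ring
      rw [a1, a2, a3, neg_neg]
      ring
    have e2 : Lam p F s c = Lam p F s0 c + Lam p F s1 c := by
      conv_lhs => rw [← hsplit]
      unfold Lam
      rw [Multiset.map_add, Multiset.sum_add]
    have e3 : Lam p F s'' f = Lam p F (s0.map (pr d)) f +
        (Lam p F (s1.map (fun a => 2 * pr d a)) f + Lam p F (s1.map (fun a => - pr d a)) f) := by
      rw [hs'']
      unfold Lam
      rw [Multiset.map_add, Multiset.sum_add, Multiset.map_add, Multiset.sum_add]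
    rw [e2, e0, e1, ← mul_add, ← e3] at h1
    exact (mul_eq_zero.mp h1).resolve_left hC
  have hpar := global_odd (p := p) (F := F) hoddd hpd hFpos hpF (K := 2 * K) (by
      intro r hr
      refine hL r (Nat.prime_of_mem_primeFactors hr) ?_ ((Nat.dvd_of_mem_primeFactors hr).trans hdm)
      rintro rfl
      exact hd2 (Nat.dvd_of_mem_primeFactors hr)) s'' hcard hrel (S := S) hD
  have hU2 : ∀ y : ZMod d, Supp S (2 * y) ↔ Supp S y := by
    intro y
    have hu : IsUnit ((2 : ℕ) : ZMod d) := (ZMod.isUnit_iff_coprime 2 d).mpr hcop.symm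
    have h := supp_unit S hu.unit y
    rw [IsUnit.unit_spec] at h
    simpa using h
  -- counts
  have c0 : (s0.map (pr d)).countP (Supp S) = s.countP (Supp S) := by
    rw [Multiset.countP_map, ← Multiset.countP_eq_card_filter]
    have h3 : s.countP (Supp S) = s0.countP (Supp S) := by
      conv_lhs => rw [← hsplit]
      rw [Multiset.countP_add]
      have h4 : s1.countP (Supp S) = 0 := by
        rw [Multiset.countP_eq_zero]
        intro a ha hSa
        have ha' : pr 2 a ≠ 0 := (Multiset.mem_filter.mp ha).2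
        have hva : ¬ 2 ∣ a.val := fun h => ha' ((hpr2 a).mpr h)
        have hord : 2 ∣ addOrderOf a := by
          subst hd
          exact even_order_of_odd_val hdpos hd2 a hva
        apply hS
        have h5 : (addOrderOf a).primeFactors = S := hSa
        rw [← h5]
        exact Nat.mem_primeFactors.mpr ⟨Nat.prime_two, hord, (addOrderOf_pos a).ne'⟩
      rw [h4, add_zero]
    rw [h3]
    apply Multiset.countP_congr rfl
    intro a ha
    have ha' : pr 2 a = 0 := (Multiset.mem_filter.mp ha).2
    have h5 := order_of_pr hm2 hcop ha'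
    show (Supp S (pr d a)) = (Supp S a)
    unfold Supp
    rw [h5]
  have c1 : (s1.map (fun a => 2 * pr d a)).countP (Supp S) =
      (s1.map (fun a => - pr d a)).countP (Supp S) := by
    rw [Multiset.countP_map, Multiset.countP_map, ← Multiset.countP_eq_card_filter,
      ← Multiset.countP_eq_card_filter]
    apply Multiset.countP_congr rfl
    intro a _
    show (Supp S (2 * pr d a)) = (Supp S (- pr d a))
    rw [eq_iff_iff, hU2, KB.supp_neg]
  have hpar' : Even (s''.countP (Supp S)) := by convert hpar
  rw [hs'', Multiset.countP_add, Multiset.countP_add, c0, c1] at hpar'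
  have h6 : Even ((s1.map (fun a => - pr d a)).countP (Supp S) +
      (s1.map (fun a => - pr d a)).countP (Supp S)) := ⟨_, rfl⟩
  have h7 := (Nat.even_add.mp hpar').mpr h6
  convert h7

open scoped Classical in
/-- **Tate characters with few entries, large index.** -/
theorem generated (hp : p.Prime) (hm : m ≠ 0) (hpm : p.Coprime m) (h4 : ¬ 4 ∣ m) {K : ℕ}
    (hL : LargeIndex p m (if 2 ∣ m then 2 * K else K))
    {s : Multiset (ZMod m)} (hs : IsTate p m s) (hne : s ≠ 0) (hc : Multiset.card s ≤ K) :
    ∃ N : ℕ, 0 < N ∧ p.Coprime N ∧ ∀ M : ℕ, N * m = M →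
      H916T.Generated M (ZBase p M) (s.map (iota N : ZMod m → ZMod M)) := by
  have hz : NeZero m := ⟨hm⟩
  have hR : Rel0 p s := fun t => hs.W_sum hpm t
  refine parity_main hp (NeZero.pos m) hpm hs hne fun a => ?_
  refine link_parity2 hs.1 hs.2.1 (fun S => S.Nonempty ∧ Dead p S) ?_ ?_ a
  · rintro S ⟨hSne, hSD⟩ b hb
    exact dead_elem S hSne hSD b hb
  · intro S hSne h2S hnD
    have hD : ¬ Dead p S := fun h => hnD ⟨hSne, h⟩
    by_cases h2 : 2 ∣ m
    · rw [if_pos h2] at hL
      obtain ⟨d, hd⟩ := h2
      have hd2 : ¬ 2 ∣ d := by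
        rintro ⟨e, rfl⟩
        exact h4 ⟨e, by rw [hd]; ring⟩
      have h := par_two hpm hd.symm hd2 hR hc hL h2S hD
      convert h
    · rw [if_neg h2] at hL
      have h := par_odd hpm h2 hR hc hL hD
      convert h

/-- for squarefree degrees the two conditions agree -/
theorem fewPowers_of_squarefree (hm : Squarefree m) {K : ℕ} (h : LargeIndex p m K) :
    FewPowers p m K := by
  intro q hq hq2 hqm
  have h1 : m.factorization q = 1 := by
    have h2 := hm.natFactorization_le_one q
    have h3 := hq.factorization_pos_of_dvd hm.ne_zero hqm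
    omega
  rw [h1, pow_one]
  exact h q hq hq2 hqm

end Pool.Agent.J4.H17.KE
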