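import Pool.Agent.J4.H17.KE.Pr

/-!
The global theorem for odd degree: induction on the supports.
-/

set_option autoImplicit false
set_option linter.unusedSectionVars false

namespace Pool.Agent.J4.H17.KE

open Finset Pool.Agent.H916R2 Pool.Agent.H916Y Pool.Agent.H916Q

variable {m p F : ℕ}

theorem ext_all {d E m : ℕ} (hm : d * E = m) (hc : d.Coprime E) (hm0 : 0 < m) (f : ZMod d → ℤ)
    (hf : Dst f) :
    ∃ (c : ZMod m → ℤ) (C : ℤ), C ≠ 0 ∧ Dst c ∧
      (∀ x : ZMod m, pr E x = 0 → c x = C * f (pr d x)) ∧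
      ∀ x : ZMod m, (∀ u : ℕ, u.Coprime d → f ((u : ZMod d) * pr d x) = 0) → c x = 0 :=
  ext_all_of (fun hr he hrk hm hk f hf => ext_prime hr he hrk hm hk f hf) hm hc hm0 f hf

lemma sum_filter_ite {α : Type*} (P : α → Prop) [DecidablePred P] (g : α → ℤ) (s : Multiset α) :
    ((s.filter P).map g).sum = (s.map fun a => if P a then g a else 0).sum := by
  induction s using Multiset.induction_on with
  | empty => simp
  | cons a s ih =>
    by_cases ha : P a
    · rw [Multiset.filter_cons_of_pos _ ha, Multiset.map_cons, Multiset.sum_cons,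
        Multiset.map_cons, Multiset.sum_cons, ih, if_pos ha]
    · rw [Multiset.filter_cons_of_neg _ ha, Multiset.map_cons, Multiset.sum_cons, ih, if_neg ha,
        zero_add]

/-- the part of `m` at the primes of `S` -/
def part (m : ℕ) (S : Finset ℕ) : ℕ := ∏ r ∈ S, r ^ m.factorization r

lemma part_pos {S : Finset ℕ} (hS : S ⊆ m.primeFactors) : 0 < part m S :=
  Finset.prod_pos fun r hr => pow_pos (Nat.prime_of_mem_primeFactors (hS hr)).pos _

lemma part_mul (hm : m ≠ 0) {S : Finset ℕ} (hS : S ⊆ m.primeFactors) :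
    part m S * part m (m.primeFactors \ S) = m := by
  unfold part
  rw [mul_comm, Finset.prod_sdiff hS]
  have h := Nat.prod_factorization_pow_eq_self hm
  rw [Finsupp.prod, Nat.support_factorization] at h
  exact h

lemma part_primeFactors (hm : m ≠ 0) {S : Finset ℕ} (hS : S ⊆ m.primeFactors) :
    (part m S).primeFactors = S := by
  ext r
  rw [Nat.mem_primeFactors]
  constructor
  · rintro ⟨hr, hrd, _⟩
    obtain ⟨q, hq, hrq⟩ := (Prime.dvd_finsetProd_iff hr.prime _).mp hrd
    have hq' := Nat.prime_of_mem_primeFactors (hS hq)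
    have h2 := hr.dvd_of_dvd_pow hrq
    rw [(Nat.prime_dvd_prime_iff_eq hr hq').mp h2]
    exact hq
  · intro hr
    have hr' := Nat.prime_of_mem_primeFactors (hS hr)
    have hv : m.factorization r ≠ 0 :=
      (hr'.factorization_pos_of_dvd hm (Nat.dvd_of_mem_primeFactors (hS hr))).ne'
    exact ⟨hr', (dvd_pow_self r hv).trans (Finset.dvd_prod_of_mem _ hr), (part_pos hS).ne'⟩

lemma part_coprime (hm : m ≠ 0) {S : Finset ℕ} (hS : S ⊆ m.primeFactors) :
    (part m S).Coprime (part m (m.primeFactors \ S)) := by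
  by_contra h
  obtain ⟨r, hr, h1, h2⟩ := Nat.Prime.not_coprime_iff_dvd.mp h
  have e1 : r ∈ (part m S).primeFactors := Nat.mem_primeFactors.mpr ⟨hr, h1, (part_pos hS).ne'⟩
  have e2 : r ∈ (part m (m.primeFactors \ S)).primeFactors :=
    Nat.mem_primeFactors.mpr ⟨hr, h2, (part_pos sdiff_subset).ne'⟩
  rw [part_primeFactors hm hS] at e1
  rw [part_primeFactors hm sdiff_subset] at e2
  exact (mem_sdiff.mp e2).2 e1

/-- an order with prime factors in `S` divides the part -/
lemma dvd_part (hm : m ≠ 0) {S : Finset ℕ} (hS : S ⊆ m.primeFactors) {n : ℕ} (hn : n ∣ m)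
    (hnS : n.primeFactors = S) : n ∣ part m S := by
  have h1 : n ∣ part m S * part m (m.primeFactors \ S) := by rw [part_mul hm hS]; exact hn
  refine Nat.Coprime.dvd_of_dvd_mul_right ?_ h1
  by_contra h
  obtain ⟨r, hr, h2, h3⟩ := Nat.Prime.not_coprime_iff_dvd.mp h
  have hn0 : n ≠ 0 := by rintro rfl; exact hm (Nat.eq_zero_of_zero_dvd hn)
  have e1 : r ∈ S := by rw [← hnS]; exact Nat.mem_primeFactors.mpr ⟨hr, h2, hn0⟩
  have e2 : r ∈ (part m (m.primeFactors \ S)).primeFactors :=
    Nat.mem_primeFactors.mpr ⟨hr, h3, (part_pos sdiff_subset).ne'⟩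
  rw [part_primeFactors hm sdiff_subset] at e2
  exact (mem_sdiff.mp e2).2 e1

open scoped Classical in
/-- the induction step -/
lemma step [NeZero m] (hodd : Odd m) (hp : p.Coprime m) (hF : 0 < F) (hpF : (p : ZMod m) ^ F = 1)
    {K : ℕ} (hK : ∀ r ∈ m.primeFactors, K * (sp p r).ncard < r - 1) (s : Multiset (ZMod m))
    (hc : Multiset.card s ≤ K) (hs : ∀ c : ZMod m → ℤ, Dst c → Lam p F s c = 0)
    {S : Finset ℕ} (hS : S ⊆ m.primeFactors)
    (IH : ∀ T : Finset ℕ, S ⊂ T → T ⊆ m.primeFactors → ∀ c : ZMod m → ℤ, Dst c →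
      Lam p F (s.filter (Supp T)) c = 0) :
    (∀ c : ZMod m → ℤ, Dst c → Lam p F (s.filter (Supp S)) c = 0) ∧
      (¬ Dead p S → Even (s.countP (Supp S))) := by
  have hm : m ≠ 0 := NeZero.ne m
  have hm0 : 0 < m := Nat.pos_of_ne_zero hm
  set d := part m S with hd
  set E := part m (m.primeFactors \ S) with hE
  have hdE : d * E = m := part_mul hm hS
  have hdc : d.Coprime E := part_coprime hm hS
  have hdpf : d.primeFactors = S := part_primeFactors hm hS
  have hd0 : 0 < d := part_pos hS
  have hE0 : 0 < E := part_pos sdiff_subset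
  have hzd : NeZero d := ⟨hd0.ne'⟩
  have hzE : NeZero E := ⟨hE0.ne'⟩
  have hdm : d ∣ m := ⟨E, hdE.symm⟩
  have hEm : E ∣ m := ⟨d, by rw [← hdE, mul_comm]⟩
  have hpd : p.Coprime d := Nat.Coprime.coprime_dvd_right hdm hp
  have hup : IsUnit (p : ZMod m) := (ZMod.isUnit_iff_coprime p m).mpr hp
  have hoddd : Odd d := hodd.of_dvd_nat hdm
  -- entries with support `S`
  have hent : ∀ x : ZMod m, Supp S x → pr E x = 0 ∧ Full (pr d x) := by
    intro x hx
    have h1 : addOrderOf x ∣ d := dvd_part hm hS (H916Z.addOrderOf_dvd_level x) hx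
    have h2 : pr E x = 0 := pr_cofactor hdE h1
    refine ⟨h2, ?_⟩
    intro r hr
    rw [← order_of_pr hdE hdc h2]
    rw [hdpf] at hr
    have h3 : (addOrderOf x).primeFactors = S := hx
    rw [← h3] at hr
    exact Nat.dvd_of_mem_primeFactors hr
  have hsuppU : ∀ (T : Finset ℕ) (x : ZMod m) (j : ℕ), Supp T ((p : ZMod m) ^ j * x) ↔ Supp T x := by
    intro T x j
    have h := supp_unit T (hup.unit ^ j) x
    simpa using h
  -- the multiset of level `d`
  set s' : Multiset (ZMod d) := (s.filter (Supp S)).map (pr d) with hs'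
  have hterm : ∀ (g : ZMod m → ℤ) (g' : ZMod d → ℤ) (C : ℤ),
      (∀ x, Supp S x → g x = C * g' (pr d x)) →
      Lam p F (s.filter (Supp S)) g = C * Lam p F s' g' := by
    intro g g' C hg
    unfold Lam
    rw [hs', Multiset.map_map, ← Multiset.sum_map_mul_left]
    congr 1
    refine Multiset.map_congr rfl fun a ha => ?_
    have ha' := (Multiset.mem_filter.mp ha).2
    simp only [Function.comp_apply]
    rw [mul_sum]
    refine sum_congr rfl fun j _ => ?_
    have h1 : Supp S ((p : ZMod m) ^ j * a) := (hsuppU S a j).mpr ha'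
    rw [hg _ h1, hg _ ((KB.supp_neg S _).mpr h1), pr_neg hdm, pr_pow_mul hdm]
    ring
  -- the test condition
  have htest : ∀ f : ZMod d → ℤ, Dst f → (∀ x, ¬ Full x → f x = 0) → Lam p F s' f = 0 := by
    intro f hf hfull
    obtain ⟨c, C, hC, hcD, hc1, hc2⟩ := ext_all hdE hdc hm0 f hf
    have h1 := hs c hcD
    have hzero : ∀ x : ZMod m, ¬ S ⊆ (addOrderOf x).primeFactors → c x = 0 := by
      intro x hx
      apply hc2
      intro u hu
      apply hfull
      rw [full_unit_mul ((ZMod.isUnit_iff_coprime u d).mpr hu)]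
      intro h2
      apply hx
      intro r hr
      rw [← hdpf] at hr
      have h3 := (h2 r hr).trans (order_pr hdm x)
      exact Nat.mem_primeFactors.mpr ⟨Nat.prime_of_mem_primeFactors hr, h3, (addOrderOf_pos x).ne'⟩
    have hsplit : Lam p F s c = Lam p F (s.filter (Supp S)) c +
        ∑ T ∈ m.primeFactors.powerset.filter (fun T => S ⊂ T), Lam p F (s.filter (Supp T)) c := by
      unfold Lam
      rw [sum_filter_ite]
      have e1 : ∀ T ∈ m.primeFactors.powerset.filter (fun T => S ⊂ T),
          ((s.filter (Supp T)).map fun a => ∑ j ∈ range F,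
            (c ((p : ZMod m) ^ j * a) - c (-((p : ZMod m) ^ j * a)))).sum =
          (s.map fun a => if Supp T a then ∑ j ∈ range F,
            (c ((p : ZMod m) ^ j * a) - c (-((p : ZMod m) ^ j * a))) else 0).sum :=
        fun T _ => sum_filter_ite _ _ _
      rw [sum_congr rfl e1, ← sum_multiset_comm, ← Multiset.sum_map_add]
      congr 1
      refine Multiset.map_congr rfl fun a _ => ?_
      generalize hG : (∑ j ∈ range F, (c ((p : ZMod m) ^ j * a) - c (-((p : ZMod m) ^ j * a)))) = G
      by_cases h2 : S ⊆ (addOrderOf a).primeFactors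
      · by_cases h3 : Supp S a
        · rw [if_pos h3, Finset.sum_eq_zero, add_zero]
          intro T hT
          rw [mem_filter] at hT
          rw [if_neg]
          intro h4
          have h5 : (addOrderOf a).primeFactors = S := h3
          have h6 : (addOrderOf a).primeFactors = T := h4
          rw [h5] at h6
          exact hT.2.ne h6
        · rw [if_neg h3, zero_add, Finset.sum_eq_single (addOrderOf a).primeFactors]
          · rw [if_pos (show Supp (addOrderOf a).primeFactors a from rfl)]
          · intro T _ hT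
            rw [if_neg]
            intro h4
            exact hT h4.symm
          · intro h4
            exfalso
            apply h4
            rw [mem_filter, mem_powerset]
            refine ⟨Nat.primeFactors_mono (H916Z.addOrderOf_dvd_level a) hm, ?_⟩
            exact lt_of_le_of_ne h2 (fun h5 => h3 h5.symm)
      · have h3 : G = 0 := by
          rw [← hG]
          refine sum_eq_zero fun j _ => ?_
          have h4 : (addOrderOf ((p : ZMod m) ^ j * a)).primeFactors = (addOrderOf a).primeFactors :=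
            (hsuppU (addOrderOf a).primeFactors a j).mpr rfl
          rw [hzero _ (by rw [h4]; exact h2), hzero _ (by rw [addOrderOf_neg, h4]; exact h2), sub_zero]
        rw [h3]
        simp
    rw [h1, Finset.sum_eq_zero, add_zero] at hsplit
    · rw [hterm c f C (fun x hx => hc1 x (hent x hx).1)] at hsplit
      exact (mul_eq_zero.mp hsplit.symm).resolve_left hC
    · intro T hT
      rw [mem_filter, mem_powerset] at hT
      exact IH T hT.2 hT.1 c hcD
  have hs'full : ∀ a ∈ s', Full a := by
    intro a ha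
    obtain ⟨b, hb, rfl⟩ := Multiset.mem_map.mp ha
    exact (hent b (Multiset.mem_filter.mp hb).2).2
  have hcard' : Multiset.card s' ≤ K := by
    rw [hs', Multiset.card_map]
    exact (Multiset.card_le_card (Multiset.filter_le _ _)).trans hc
  obtain ⟨L1, L2⟩ := local_thm (p := p) (F := F) hoddd hpd hF (by
      have h2 := congrArg (ZMod.castHom hdm (ZMod d)) hpF
      rwa [map_pow, map_natCast, map_one] at h2) s' hs'full (by
      intro r hr
      rw [hdpf] at hr
      exact lt_of_le_of_lt (Nat.mul_le_mul_right _ hcard') (hK r (hS hr))) htest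
  refine ⟨?_, ?_⟩
  · intro c hcD
    have hEu : IsUnit (E : ZMod d) := (ZMod.isUnit_iff_coprime E d).mpr hdc.symm
    have hu : ((hEu.unit⁻¹ : (ZMod d)ˣ) : ZMod d) * (E : ZMod d) = 1 := by
      have h := Units.inv_mul hEu.unit
      rwa [IsUnit.unit_spec] at h
    have h1 : Dst (fun b : ZMod d => c (iota E (((hEu.unit⁻¹ : (ZMod d)ˣ) : ZMod d) * b))) :=
      dst_iff.mpr (KB.Dst.mul (dst_iff.mp (Dst.comp_iota hdE hcD)) (hEu.unit⁻¹))
    rw [hterm c (fun b : ZMod d => c (iota E (((hEu.unit⁻¹ : (ZMod d)ˣ) : ZMod d) * b))) 1, L1 _ h1,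
      mul_zero]
    intro x hx
    rw [one_mul]
    show c x = c (iota E (((hEu.unit⁻¹ : (ZMod d)ˣ) : ZMod d) * pr d x))
    rw [iota_pr hdE hdc (hent x hx).1 _ hu]
  · intro hD
    have h1 := L2 (by rw [hdpf]; exact hD)
    rw [hs', Multiset.card_map, ← Multiset.countP_eq_card_filter] at h1
    convert h1

open scoped Classical in
/-- **The global theorem in odd degree.** -/
theorem global_odd [NeZero m] (hodd : Odd m) (hp : p.Coprime m) (hF : 0 < F)
    (hpF : (p : ZMod m) ^ F = 1)
    {K : ℕ} (hK : ∀ r ∈ m.primeFactors, K * (sp p r).ncard < r - 1) (s : Multiset (ZMod m))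
    (hc : Multiset.card s ≤ K) (hs : ∀ c : ZMod m → ℤ, Dst c → Lam p F s c = 0)
    {S : Finset ℕ} (hD : ¬ Dead p S) : Even (s.countP (Supp S)) := by
  have key : ∀ n : ℕ, ∀ S : Finset ℕ, S ⊆ m.primeFactors → m.primeFactors.card ≤ S.card + n →
      (∀ c : ZMod m → ℤ, Dst c → Lam p F (s.filter (Supp S)) c = 0) ∧
        (¬ Dead p S → Even (s.countP (Supp S))) := by
    intro n
    induction n with
    | zero =>
      intro S hS hcard
      refine step hodd hp hF hpF hK s hc hs hS fun T hT hTm => ?_
      exfalso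
      have h1 := card_lt_card hT
      have h2 := card_le_card hTm
      omega
    | succ n ih =>
      intro S hS hcard
      refine step hodd hp hF hpF hK s hc hs hS fun T hT hTm => ?_
      have h1 := card_lt_card hT
      exact (ih T hTm (by omega)).1
  by_cases hS : S ⊆ m.primeFactors
  · exact (key _ S hS (Nat.le_add_left _ _)).2 hD
  · have h1 : s.countP (Supp S) = 0 := by
      rw [Multiset.countP_eq_zero]
      intro a _ ha
      apply hS
      have h2 : (addOrderOf a).primeFactors = S := ha
      rw [← h2]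
      exact Nat.primeFactors_mono (H916Z.addOrderOf_dvd_level a) (NeZero.ne m)
    rw [h1]
    exact Even.zero

end Pool.Agent.J4.H17.KE
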