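import Pool.Agent.J4.H17.KE.Spr

/-!
Piece HOLE: a shift of a unit which avoids the residues `± p ^ j y_a`.
-/

set_option autoImplicit false

namespace Pool.Agent.J4.H17.KE

open Finset

namespace Hole

/-- the residue that is missed -/
theorem missed {r : ℕ} (hr : r.Prime) (A : Set (ZMod r)) (hA : A.ncard < r - 1) :
    ∃ h : ZMod r, h ≠ 0 ∧ h ∉ A := by
  have : Fact r.Prime := ⟨hr⟩
  by_contra hcon
  push Not at hcon
  have hsub : ({0}ᶜ : Set (ZMod r)) ⊆ A := fun x hx => hcon x (by simpa using hx)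
  have h1 := Set.ncard_le_ncard hsub (Set.toFinite A)
  have h2 : ({0}ᶜ : Set (ZMod r)).ncard = r - 1 := by
    rw [Set.ncard_compl, Nat.card_eq_fintype_card, ZMod.card, Set.ncard_singleton]
  omega

/-- one prime: the unit `w` with prescribed residue -/
theorem one_unit {d : ℕ} [NeZero d] (r : ℕ) (hr : r ∈ d.primeFactors) (z : ZMod d) (hz : IsUnit z)
    (h : ZMod r) (hh : h ≠ 0) :
    ∃ w : ZMod d, IsUnit w ∧ ((r ^ d.factorization r : ℕ) : ZMod d) * (w - 1) = 0 ∧
      (ZMod.castHom (Nat.dvd_of_mem_primeFactors hr) (ZMod r)) (w * z) = h := by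
  have hd : d ≠ 0 := NeZero.ne d
  have hrp : r.Prime := Nat.prime_of_mem_primeFactors hr
  have : Fact r.Prime := ⟨hrp⟩
  have hrd : r ∣ d := Nat.dvd_of_mem_primeFactors hr
  set φ := ZMod.castHom hrd (ZMod r) with hφ
  have hv : d.factorization r ≠ 0 := by
    have := (Nat.Prime.factorization_pos_of_dvd hrp hd hrd)
    omega
  have hmul : r ^ d.factorization r * (d / r ^ d.factorization r) = d :=
    Nat.ordProj_mul_ordCompl_eq_self d r
  have hcop : (r ^ d.factorization r).Coprime (d / r ^ d.factorization r) :=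
    (Nat.coprime_ordCompl hrp hd).pow_left _
  have hφz : φ z ≠ 0 := (hz.map φ).ne_zero
  set u : ZMod r := h * (φ z)⁻¹ with hu
  have hu0 : u ≠ 0 := mul_ne_zero hh (inv_ne_zero hφz)
  obtain ⟨W, hW1, hW2⟩ := Nat.chineseRemainder hcop u.val 1
  have hWr : ((W : ℕ) : ZMod r) = u := by
    have h1 : W ≡ u.val [MOD r] := hW1.of_dvd (dvd_pow_self r hv)
    rw [(ZMod.natCast_eq_natCast_iff _ _ _).2 h1, ZMod.natCast_zmod_val]
  refine ⟨(W : ZMod d), ?_, ?_, ?_⟩
  · rw [ZMod.isUnit_iff_coprime, ← hmul]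
    apply Nat.Coprime.mul_right
    · apply Nat.Coprime.pow_right
      rw [Nat.coprime_comm, hrp.coprime_iff_not_dvd]
      intro hdvd
      apply hu0
      rw [← hWr, (ZMod.natCast_eq_zero_iff _ _).2 hdvd]
    · have := hW2.gcd_eq
      rw [Nat.Coprime, this, Nat.gcd_one_left]
  · have h1 : ((W : ℕ) : ZMod (d / r ^ d.factorization r)) = ((1 : ℕ) : ZMod _) :=
      (ZMod.natCast_eq_natCast_iff _ _ _).2 hW2
    have h2 : ((d / r ^ d.factorization r : ℕ) : ℤ) ∣ (W : ℤ) - 1 := by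
      have := (Nat.modEq_iff_dvd.1 hW2.symm)
      simpa using this
    obtain ⟨c, hc⟩ := h2
    have h3 : (W : ZMod d) - 1 = ((d / r ^ d.factorization r : ℕ) : ZMod d) * (c : ZMod d) := by
      have := congrArg (Int.cast : ℤ → ZMod d) hc
      rw [Int.cast_sub, Int.cast_mul, Int.cast_natCast, Int.cast_natCast, Int.cast_one] at this
      exact this
    rw [h3, ← mul_assoc, ← Nat.cast_mul, hmul, ZMod.natCast_self, zero_mul]
  · rw [map_mul, map_natCast, hWr, hu, mul_assoc, inv_mul_cancel₀ hφz, mul_one]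

/-- an element killed by a divisor of the core is divisible by all primes -/
theorem kill {d : ℕ} [NeZero d] {e r : ℕ} (hr : r ∈ d.primeFactors) (he : e ∈ (core d).divisors)
    (x : ZMod d) (hx : (e : ZMod d) * x = 0) :
    (ZMod.castHom (Nat.dvd_of_mem_primeFactors hr) (ZMod r)) x = 0 := by
  have hd : d ≠ 0 := NeZero.ne d
  have hrad : (∏ r ∈ d.primeFactors, r) ∣ d := Nat.prod_primeFactors_dvd d
  have hecore : e ∣ core d := (Nat.mem_divisors.1 he).1
  have hcore : core d ≠ 0 := (Nat.mem_divisors.1 he).2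
  have h1 : e * r ∣ d := by
    have h2 : (∏ r ∈ d.primeFactors, r) * core d = d := Nat.mul_div_cancel' hrad
    have h3 : r ∣ ∏ r ∈ d.primeFactors, r := Finset.dvd_prod_of_mem _ hr
    calc e * r ∣ core d * ∏ r ∈ d.primeFactors, r := mul_dvd_mul hecore h3
      _ = d := by rw [mul_comm, h2]
  have he0 : e ≠ 0 := by rintro rfl; exact hcore (Nat.eq_zero_of_zero_dvd hecore)
  obtain ⟨x', rfl⟩ : ∃ n : ℕ, (n : ZMod d) = x := ⟨x.val, ZMod.natCast_zmod_val x⟩
  have h4 : d ∣ e * x' := by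
    rw [← Nat.cast_mul, ZMod.natCast_eq_zero_iff] at hx
    exact hx
  have h5 : r ∣ x' := Nat.dvd_of_mul_dvd_mul_left (Nat.pos_of_ne_zero he0) (h1.trans h4)
  rw [map_natCast, (ZMod.natCast_eq_zero_iff _ _).2 h5]

theorem holes' {d p : ℕ} [NeZero d] (hp : p.Coprime d) (s : Multiset (ZMod d))
    (full_form : ∀ x : ZMod d, Full x → ∃ e ∈ (core d).divisors, ∃ y : (ZMod d)ˣ,
      x = (e : ZMod d) * (y : ZMod d))
    (form_unique : ∀ {e e' : ℕ}, e ∈ (core d).divisors → e' ∈ (core d).divisors →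
      ∀ y y' : (ZMod d)ˣ, (e : ZMod d) * (y : ZMod d) = (e' : ZMod d) * (y' : ZMod d) → e = e')
    (hs : ∀ a ∈ s, Full a)
    (hK : ∀ r ∈ d.primeFactors, Multiset.card s * (sp p r).ncard < r - 1)
    (z : ZMod d) (hz : IsUnit z) :
    ∃ w : ℕ → ZMod d, (∀ r ∈ d.primeFactors, IsUnit (w r)) ∧
      (∀ r ∈ d.primeFactors, ((r ^ d.factorization r : ℕ) : ZMod d) * (w r - 1) = 0) ∧
      ∀ T ⊆ d.primeFactors, T.Nonempty → ∀ a ∈ s, ∀ e ∈ (core d).divisors, ∀ j : ℕ,
        (e : ZMod d) * ((∏ r ∈ T, w r) * z) ≠ (p : ZMod d) ^ j * a ∧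
        (e : ZMod d) * ((∏ r ∈ T, w r) * z) ≠ -((p : ZMod d) ^ j * a) := by
  classical
  have hd : d ≠ 0 := NeZero.ne d
  choose! E hE Y hY using full_form
  -- the missed residues
  have hmiss : ∀ r : ℕ, ∃ h : ZMod r, r ∈ d.primeFactors → (h ≠ 0 ∧ ∀ a ∈ s, ∀ x ∈ sp p r,
      h ≠ x * ((((Y a : (ZMod d)ˣ) : ZMod d).val : ℕ) : ZMod r)) := by
    intro r
    by_cases hr : r ∈ d.primeFactors
    · have hrp : r.Prime := Nat.prime_of_mem_primeFactors hr
      have : Fact r.Prime := ⟨hrp⟩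
      set A : Set (ZMod r) := ⋃ a ∈ s.toFinset,
        (fun x => x * ((((Y a : (ZMod d)ˣ) : ZMod d).val : ℕ) : ZMod r)) '' (sp p r) with hA
      have hcard : A.ncard < r - 1 := by
        refine lt_of_le_of_lt ?_ (hK r hr)
        calc A.ncard ≤ ∑ a ∈ s.toFinset, ((fun x => x *
              ((((Y a : (ZMod d)ˣ) : ZMod d).val : ℕ) : ZMod r)) '' (sp p r)).ncard := by
              rw [hA]
              exact Finset.set_ncard_biUnion_le _ _
          _ ≤ ∑ _a ∈ s.toFinset, (sp p r).ncard :=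
              Finset.sum_le_sum fun a _ => Set.ncard_image_le (Set.toFinite _)
          _ = s.toFinset.card * (sp p r).ncard := by rw [Finset.sum_const, smul_eq_mul]
          _ ≤ Multiset.card s * (sp p r).ncard :=
              Nat.mul_le_mul_right _ (Multiset.toFinset_card_le s)
      obtain ⟨h, h0, hmem⟩ := missed hrp A hcard
      refine ⟨h, fun _ => ⟨h0, fun a ha x hx heq => hmem ?_⟩⟩
      rw [hA]
      simp only [Set.mem_iUnion]
      exact ⟨a, Multiset.mem_toFinset.2 ha, x, hx, heq.symm⟩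
    · exact ⟨0, fun h => absurd h hr⟩
  choose h hh using hmiss
  have hw : ∀ r : ℕ, ∃ w : ZMod d, ∀ hr : r ∈ d.primeFactors,
      IsUnit w ∧ ((r ^ d.factorization r : ℕ) : ZMod d) * (w - 1) = 0 ∧
      (ZMod.castHom (Nat.dvd_of_mem_primeFactors hr) (ZMod r)) (w * z) = h r := by
    intro r
    by_cases hr : r ∈ d.primeFactors
    · obtain ⟨w, h1, h2, h3⟩ := one_unit r hr z hz (h r) (hh r hr).1
      exact ⟨w, fun _ => ⟨h1, h2, h3⟩⟩
    · exact ⟨0, fun hr' => absurd hr' hr⟩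
  choose w hw using hw
  refine ⟨w, fun r hr => (hw r hr).1, fun r hr => (hw r hr).2.1, ?_⟩
  intro T hT hTne a ha e he j
  obtain ⟨r, hrT⟩ := hTne
  have hr := hT hrT
  have hrp : r.Prime := Nat.prime_of_mem_primeFactors hr
  have : Fact r.Prime := ⟨hrp⟩
  set φ := ZMod.castHom (Nat.dvd_of_mem_primeFactors hr) (ZMod r) with hφ
  -- the residue of the shifted unit
  have hone : ∀ r' ∈ T, r' ≠ r → φ (w r') = 1 := by
    intro r' hr'T hne
    have hr' := hT hr'T
    have hr'p : r'.Prime := Nat.prime_of_mem_primeFactors hr'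
    have h2 := (hw r' hr').2.1
    have h3 : φ (((r' ^ d.factorization r' : ℕ) : ZMod d) * (w r' - 1)) = 0 := by rw [h2, map_zero]
    rw [map_mul, map_natCast, map_sub, map_one] at h3
    rcases mul_eq_zero.1 h3 with h4 | h4
    · exfalso
      rw [ZMod.natCast_eq_zero_iff] at h4
      exact hne.symm ((Nat.prime_dvd_prime_iff_eq hrp hr'p).1 (hrp.dvd_of_dvd_pow h4))
    · exact sub_eq_zero.1 h4
  have hres : φ ((∏ r ∈ T, w r) * z) = h r := by
    rw [← (hw r hr).2.2, map_mul, map_mul, map_prod]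
    congr 1
    exact Finset.prod_eq_single_of_mem r hrT fun r' hr'T hne => hone r' hr'T hne
  have hunit : IsUnit ((∏ r ∈ T, w r) * z) := by
    refine IsUnit.mul ?_ hz
    rw [IsUnit.prod_iff]
    intro r' hr'
    exact (hw r' (hT hr')).1
  have hval : ∀ x : ZMod d, φ x = ((x.val : ℕ) : ZMod r) := by
    intro x
    rw [hφ, ZMod.castHom_apply, ZMod.cast_eq_val]
  obtain ⟨pu, hpu⟩ : ∃ pu : (ZMod d)ˣ, (pu : ZMod d) = (p : ZMod d) :=
    ⟨ZMod.unitOfCoprime p hp, ZMod.coe_unitOfCoprime p hp⟩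
  obtain ⟨yu, hyu⟩ := hunit
  have hYa := hY a (hs a ha)
  have hEa := hE a (hs a ha)
  have key : ∀ v : (ZMod d)ˣ, (e : ZMod d) * ((∏ r ∈ T, w r) * z) = (E a : ZMod d) * (v : ZMod d) →
      φ (v : ZMod d) = h r := by
    intro v hv
    rw [← hyu] at hv
    have heq := form_unique he hEa yu v hv
    rw [← heq] at hv
    have h5 : (e : ZMod d) * ((yu : ZMod d) - (v : ZMod d)) = 0 := by
      rw [mul_sub, hv, sub_self]
    have h6 := kill hr he _ h5
    rw [← hφ, map_sub, sub_eq_zero, hyu, hres] at h6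
    exact h6.symm
  constructor
  · intro heq
    have h7 := key (pu ^ j * Y a) (by
      rw [heq]
      nth_rewrite 1 [hYa]
      push_cast
      rw [hpu]
      ring)
    refine (hh r hr).2 a ha ((p : ZMod r) ^ j) ⟨j, Or.inl rfl⟩ ?_
    rw [← h7, ← hval]
    push_cast
    rw [hpu, map_mul, map_pow, map_natCast]
  · intro heq
    have h7 := key (-(pu ^ j * Y a)) (by
      rw [heq]
      nth_rewrite 1 [hYa]
      push_cast
      rw [hpu]
      ring)
    refine (hh r hr).2 a ha (-(p : ZMod r) ^ j) ⟨j, Or.inr rfl⟩ ?_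
    rw [← h7, ← hval]
    push_cast
    rw [hpu, map_neg, map_mul, map_pow, map_natCast, neg_mul]

end Hole

theorem holes {d p : ℕ} [NeZero d] (hp : p.Coprime d) (s : Multiset (ZMod d))
    (hs : ∀ a ∈ s, Full a)
    (hK : ∀ r ∈ d.primeFactors, Multiset.card s * (sp p r).ncard < r - 1)
    (z : ZMod d) (hz : IsUnit z) :
    ∃ w : ℕ → ZMod d, (∀ r ∈ d.primeFactors, IsUnit (w r)) ∧
      (∀ r ∈ d.primeFactors, ((r ^ d.factorization r : ℕ) : ZMod d) * (w r - 1) = 0) ∧
      ∀ T ⊆ d.primeFactors, T.Nonempty → ∀ a ∈ s, ∀ e ∈ (core d).divisors, ∀ j : ℕ,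
        (e : ZMod d) * ((∏ r ∈ T, w r) * z) ≠ (p : ZMod d) ^ j * a ∧
        (e : ZMod d) * ((∏ r ∈ T, w r) * z) ≠ -((p : ZMod d) ^ j * a) :=
  Hole.holes' hp s full_form (fun he he' y y' h => form_unique he he' y y' h) hs hK z hz

end Pool.Agent.J4.H17.KE
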