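import Pool.Agent.J4.H17.KE.Defs

/-!
Distributions on `ℤ / m`: the parity of the number of the entries of full order.
-/

set_option autoImplicit false

namespace Pool.Agent.J4.H17.KE

open Finset

namespace PA

variable {d p F : ℕ}

lemma ord_unit (u : (ZMod d)ˣ) (x : ZMod d) :
    addOrderOf ((u : ZMod d) * x) = addOrderOf x := by
  have h := addOrderOf_injective (AddMonoidHom.mulLeft (u : ZMod d)) (fun a b hab => by
    simpa using hab) x
  simpa using h

lemma ord_div [NeZero d] {e : ℕ} (he : e ∣ d) : addOrderOf (e : ZMod d) = d / e := by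
  rw [ZMod.addOrderOf_coe e (NeZero.ne d), Nat.gcd_eq_right he]

lemma core_mul (d : ℕ) : core d * ∏ r ∈ d.primeFactors, r = d :=
  Nat.div_mul_cancel (Nat.prod_primeFactors_dvd d)

lemma dvd_of_core {e : ℕ} (he : e ∈ (core d).divisors) : e ∣ d :=
  (Nat.dvd_of_mem_divisors he).trans ⟨_, (core_mul d).symm⟩

lemma rad_pos (d : ℕ) : 0 < ∏ r ∈ d.primeFactors, r :=
  Finset.prod_pos fun _ hr => (Nat.prime_of_mem_primeFactors hr).pos

lemma form [NeZero d] (x : ZMod d) (hx : Full x) :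
    ∃ e ∈ (core d).divisors, ∃ y : (ZMod d)ˣ, x = (e : ZMod d) * (y : ZMod d) := by
  obtain ⟨g, hg, u, hu, hxu⟩ := ZMod.eq_unit_mul_divisor x
  obtain ⟨u, rfl⟩ := hu
  have hd0 : 0 < d := Nat.pos_of_ne_zero (NeZero.ne d)
  have h1 : addOrderOf x = d / g := by rw [hxu, ord_unit, ord_div hg]
  have h2 : (∏ r ∈ d.primeFactors, r) ∣ d / g := by
    refine Finset.prod_primes_dvd _ (fun r hr => (Nat.prime_of_mem_primeFactors hr).prime) ?_
    intro r hr
    rw [← h1]
    exact hx r hr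
  have h3 : g ∣ core d := by
    obtain ⟨k, hk⟩ := h2
    have h4 : g * ((∏ r ∈ d.primeFactors, r) * k) = d := by
      rw [← hk]
      exact Nat.mul_div_cancel' hg
    refine ⟨k, ?_⟩
    have h5 := core_mul d
    have h6 := rad_pos d
    apply Nat.eq_of_mul_eq_mul_right h6
    rw [h5]
    calc d = g * ((∏ r ∈ d.primeFactors, r) * k) := h4.symm
      _ = _ := by ring
  refine ⟨g, ?_, u, by rw [hxu, mul_comm]⟩
  rw [Nat.mem_divisors]
  refine ⟨h3, fun h => ?_⟩
  have h5 := core_mul d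
  rw [h, zero_mul] at h5
  omega

lemma form_uniq [NeZero d] {e e' : ℕ} (he : e ∈ (core d).divisors)
    (he' : e' ∈ (core d).divisors) (y y' : (ZMod d)ˣ)
    (h : (e : ZMod d) * (y : ZMod d) = (e' : ZMod d) * (y' : ZMod d)) : e = e' := by
  have hd0 : 0 < d := Nat.pos_of_ne_zero (NeZero.ne d)
  have h1 := dvd_of_core he
  have h2 := dvd_of_core he'
  have h3 : addOrderOf ((e : ZMod d) * (y : ZMod d)) = d / e := by
    rw [mul_comm, ord_unit, ord_div h1]
  have h4 : addOrderOf ((e' : ZMod d) * (y' : ZMod d)) = d / e' := by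
    rw [mul_comm, ord_unit, ord_div h2]
  rw [h, h4] at h3
  have h5 : e * (d / e) = d := Nat.mul_div_cancel' h1
  have h6 : e' * (d / e') = d := Nat.mul_div_cancel' h2
  rw [h3] at h6
  have h7 : 0 < d / e := Nat.div_pos (Nat.le_of_dvd hd0 h1) (Nat.pos_of_dvd_of_pos h1 hd0)
  exact Nat.eq_of_mul_eq_mul_right h7 (h5.trans h6.symm)

/-- the units `u` with `e u = e` -/
def stab (d e : ℕ) : Subgroup (ZMod d)ˣ where
  carrier := {u | (e : ZMod d) * (u : ZMod d) = e}
  one_mem' := by simp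
  mul_mem' := by
    intro a b ha hb
    show (e : ZMod d) * ((a * b : (ZMod d)ˣ) : ZMod d) = e
    have ha' : (e : ZMod d) * (a : ZMod d) = e := ha
    have hb' : (e : ZMod d) * (b : ZMod d) = e := hb
    rw [Units.val_mul, ← mul_assoc, ha', hb']
  inv_mem' := by
    intro a ha
    show (e : ZMod d) * ((a⁻¹ : (ZMod d)ˣ) : ZMod d) = e
    have ha' : (e : ZMod d) * (a : ZMod d) = e := ha
    calc (e : ZMod d) * ((a⁻¹ : (ZMod d)ˣ) : ZMod d)
        = ((e : ZMod d) * (a : ZMod d)) * ((a⁻¹ : (ZMod d)ˣ) : ZMod d) := by rw [ha']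
      _ = e := by rw [mul_assoc, Units.mul_inv, mul_one]

lemma mem_stab {e : ℕ} {u : (ZMod d)ˣ} :
    u ∈ stab d e ↔ (e : ZMod d) * (u : ZMod d) = e := Iff.rfl

/-- `u = 1` if `u² = 1` and `e u = e`, `d` odd, `e ∣ core d` -/
lemma stab_two [NeZero d] (hd : Odd d) {e : ℕ} (he : e ∈ (core d).divisors) {u : (ZMod d)ˣ}
    (hu : u ∈ stab d e) (h2 : u ^ 2 = 1) : u = 1 := by
  have hd0 : 0 < d := Nat.pos_of_ne_zero (NeZero.ne d)
  rw [mem_stab] at hu
  -- an integer representative
  set n : ℕ := (u : ZMod d).val with hn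
  have hun : ((n : ℕ) : ZMod d) = (u : ZMod d) := by rw [hn, ZMod.natCast_zmod_val]
  -- all primes of `d` divide `n - 1`
  have h3 : ∀ r ∈ d.primeFactors, ((n : ℕ) : ZMod r) = 1 := by
    intro r hr
    obtain ⟨k, hk⟩ := Nat.dvd_of_mem_divisors he
    have h4 := core_mul d
    rw [hk] at h4
    -- `e (n - 1) = 0` modulo `e * rad`
    have h5 : (d : ℤ) ∣ (e : ℤ) * ((n : ℤ) - 1) := by
      rw [← ZMod.intCast_zmod_eq_zero_iff_dvd _ d]
      push_cast
      rw [hun, mul_sub, hu, mul_one, sub_self]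
    have he0 : (e : ℤ) ≠ 0 := by
      have : e ∣ d := dvd_of_core he
      have := Nat.pos_of_dvd_of_pos this hd0
      positivity
    have h6 : ((k * ∏ r ∈ d.primeFactors, r : ℕ) : ℤ) ∣ (n : ℤ) - 1 := by
      have h7 : (d : ℤ) = (e : ℤ) * ((k * ∏ r ∈ d.primeFactors, r : ℕ) : ℤ) := by
        have h8 : d = e * (k * ∏ r ∈ d.primeFactors, r) := by
          rw [← mul_assoc]
          exact h4.symm
        exact_mod_cast h8
      rw [h7] at h5
      exact (mul_dvd_mul_iff_left he0).1 h5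
    have h7 : (r : ℤ) ∣ (n : ℤ) - 1 := by
      refine dvd_trans ?_ h6
      exact_mod_cast (Finset.dvd_prod_of_mem (fun r => r) hr).trans (Dvd.intro_left _ rfl)
    rw [← ZMod.intCast_zmod_eq_zero_iff_dvd _ r] at h7
    push_cast at h7
    exact sub_eq_zero.1 h7
  -- `n + 1` is prime to `d`
  have h4 : Nat.Coprime (n + 1) d := by
    rw [Nat.coprime_comm]
    by_contra hcon
    obtain ⟨r, hr, hr1, hr2⟩ := Nat.Prime.not_coprime_iff_dvd.1 hcon
    have h5 := h3 r (Nat.mem_primeFactors.2 ⟨hr, hr1, hd0.ne'⟩)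
    have h6 : ((n + 1 : ℕ) : ZMod r) = 0 := (ZMod.natCast_eq_zero_iff _ _).2 hr2
    push_cast at h6
    rw [h5] at h6
    have h7 : ((2 : ℕ) : ZMod r) = 0 := by
      push_cast
      rw [← h6]
      ring
    rw [ZMod.natCast_eq_zero_iff] at h7
    have h8 : r = 2 := (Nat.prime_dvd_prime_iff_eq hr Nat.prime_two).1 h7
    rw [h8] at hr1
    obtain ⟨c, hc⟩ := hd
    omega
  have h5 : IsUnit ((u : ZMod d) + 1) := by
    have := (ZMod.unitOfCoprime (n + 1) h4).isUnit
    rw [ZMod.coe_unitOfCoprime] at this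
    push_cast at this
    rwa [hun] at this
  have h6 : ((u : ZMod d) + 1) * ((u : ZMod d) - 1) = 0 := by
    have h7 : (u : ZMod d) ^ 2 = 1 := by
      rw [← Units.val_pow_eq_pow_val, h2, Units.val_one]
    linear_combination h7
  have h7 := (h5.mul_right_eq_zero).1 h6
  exact Units.ext (by rw [Units.val_one]; exact sub_eq_zero.1 h7)

lemma stab_odd [NeZero d] (hd : Odd d) {e : ℕ} (he : e ∈ (core d).divisors) :
    Odd (Nat.card (stab d e)) := by
  rw [← Nat.not_even_iff_odd]
  intro hev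
  have : Fact (Nat.Prime 2) := ⟨Nat.prime_two⟩
  obtain ⟨u, hu⟩ := exists_prime_orderOf_dvd_card' (G := stab d e) 2 hev.two_dvd
  have h1 : (u : (ZMod d)ˣ) ^ 2 = 1 := by
    have := pow_orderOf_eq_one u
    rw [hu] at this
    have h2 := congrArg (fun x : stab d e => (x : (ZMod d)ˣ)) this
    simpa using h2
  have h2 : (u : (ZMod d)ˣ) = 1 := stab_two hd he u.2 h1
  have h3 : u = 1 := Subtype.ext h2
  rw [h3, orderOf_one] at hu
  omega

/-- the number of the units `y` with `e y = a` for some `e` -/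
def tot (a : ZMod d) (y : (ZMod d)ˣ) : ℤ :=
  ∑ e ∈ (core d).divisors, if (e : ZMod d) * (y : ZMod d) = a then 1 else 0

lemma tot_odd [NeZero d] (hd : Odd d) {a : ZMod d} (ha : Full a) :
    Odd (∑ y : (ZMod d)ˣ, tot a y) := by
  classical
  obtain ⟨e, he, z, hz⟩ := form a ha
  unfold tot
  rw [Finset.sum_comm, Finset.sum_eq_single e]
  · rw [Finset.sum_boole]
    have h1 : ((univ.filter fun y : (ZMod d)ˣ => (e : ZMod d) * (y : ZMod d) = a).card) =
        Nat.card (stab d e) := by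
      show _ = Nat.card ((stab d e : Set (ZMod d)ˣ) : Set (ZMod d)ˣ)
      rw [Nat.card_eq_card_toFinset (stab d e : Set (ZMod d)ˣ)]
      refine Finset.card_bij (fun y _ => y * z⁻¹) ?_ ?_ ?_
      · intro y hy
        rw [Finset.mem_filter] at hy
        rw [Set.mem_toFinset, SetLike.mem_coe, mem_stab, Units.val_mul, ← mul_assoc, hy.2, hz,
          mul_assoc, Units.mul_inv, mul_one]
      · intro y _ y' _ h
        exact mul_right_cancel h
      · intro u hu
        rw [Set.mem_toFinset, SetLike.mem_coe, mem_stab] at hu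
        refine ⟨u * z, ?_, by group⟩
        rw [Finset.mem_filter]
        refine ⟨Finset.mem_univ _, ?_⟩
        rw [Units.val_mul, ← mul_assoc, hu, hz]
    rw [h1]
    exact_mod_cast stab_odd hd he
  · intro e' he' hne
    refine Finset.sum_eq_zero fun y _ => if_neg fun h => hne ?_
    rw [hz] at h
    exact form_uniq he' he y z h
  · intro h
    exact absurd he h

/-- the least representative in the orbit under `p` -/
noncomputable def mu (p : ℕ) (z : ZMod d) : ℕ :=
  sInf {n : ℕ | ∃ j : ℕ, n = ((p : ZMod d) ^ j * z).val}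

lemma mu_mem (z : ZMod d) : ∃ j : ℕ, mu p z = ((p : ZMod d) ^ j * z).val :=
  Nat.sInf_mem (s := {n : ℕ | ∃ j : ℕ, n = ((p : ZMod d) ^ j * z).val}) ⟨_, 0, rfl⟩

lemma mu_inv (hF : 0 < F) (hpF : (p : ZMod d) ^ F = 1) (z : ZMod d) :
    mu p ((p : ZMod d) * z) = mu p z := by
  unfold mu
  congr 1
  ext n
  constructor
  · rintro ⟨j, rfl⟩
    exact ⟨j + 1, by rw [pow_succ, mul_assoc]⟩
  · rintro ⟨j, rfl⟩
    obtain ⟨f, rfl⟩ : ∃ f, F = f + 1 := ⟨F - 1, by omega⟩
    refine ⟨j + f, ?_⟩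
    have h1 : (p : ZMod d) ^ (j + f) * ((p : ZMod d) * z) = (p : ZMod d) ^ j * z := by
      calc (p : ZMod d) ^ (j + f) * ((p : ZMod d) * z)
          = (p : ZMod d) ^ j * ((p : ZMod d) ^ (f + 1) * z) := by ring
        _ = _ := by rw [hpF, one_mul]
    rw [h1]

lemma mu_ne [NeZero d] (hF : 0 < F) (hpF : (p : ZMod d) ^ F = 1)
    (hneg : ¬ ∃ j : ℕ, (∏ r ∈ d.primeFactors, r) ∣ p ^ j + 1) (y : (ZMod d)ˣ) :
    mu p (y : ZMod d) ≠ mu p (-(y : ZMod d)) := by
  intro h
  obtain ⟨i, hi⟩ := mu_mem (p := p) (y : ZMod d)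
  obtain ⟨j, hj⟩ := mu_mem (p := p) (-(y : ZMod d))
  rw [hi, hj] at h
  have h1 := ZMod.val_injective d h
  have h2 : (p : ZMod d) ^ i = -(p : ZMod d) ^ j := by
    have h3 : (p : ZMod d) ^ i * (y : ZMod d) = (-(p : ZMod d) ^ j) * (y : ZMod d) := by
      rw [h1]; ring
    exact (Units.mul_left_inj y).1 h3
  obtain ⟨k, hk⟩ : ∃ k, k + i = F * (i + 1) := ⟨F * (i + 1) - i, by
    have : i ≤ F * (i + 1) := by nlinarith
    omega⟩
  apply hneg
  refine ⟨k + j, (Nat.prod_primeFactors_dvd d).trans ?_⟩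
  rw [← ZMod.natCast_eq_zero_iff]
  push_cast
  have h4 : (p : ZMod d) ^ (k + i) = 1 := by rw [hk, pow_mul, hpF, one_pow]
  rw [pow_add, h2] at h4
  rw [pow_add]
  linear_combination -h4

end PA

open PA in
theorem par {d p F : ℕ} [NeZero d] (hd : Odd d) (hp : p.Coprime d) (hF : 0 < F)
    (hpF : (p : ZMod d) ^ F = 1) (s : Multiset (ZMod d)) (hs : ∀ a ∈ s, Full a)
    (hneg : ¬ ∃ j : ℕ, (∏ r ∈ d.primeFactors, r) ∣ p ^ j + 1)
    (hB : ∀ y : (ZMod d)ˣ, (s.map fun a => ∑ j ∈ range F, ∑ e ∈ (core d).divisors,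
      (((if (e : ZMod d) * (y : ZMod d) = (p : ZMod d) ^ j * a then 1 else 0 : ℤ)) -
        (if (e : ZMod d) * (y : ZMod d) = -((p : ZMod d) ^ j * a) then 1 else 0))).sum = 0) :
    Even (Multiset.card s) := by
  classical
  set A : Finset (ZMod d)ˣ := univ.filter fun y => mu p (y : ZMod d) < mu p (-(y : ZMod d)) with hA
  set α : ZMod d → ℤ := fun a => ∑ y ∈ A, tot a y with hα
  have hmemA : ∀ y : (ZMod d)ˣ, y ∈ A ↔ mu p (y : ZMod d) < mu p (-(y : ZMod d)) := by
    intro y
    rw [hA, Finset.mem_filter]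
    simp
  set P : (ZMod d)ˣ := ZMod.unitOfCoprime p hp with hP
  have hPv : (P : ZMod d) = p := ZMod.coe_unitOfCoprime p hp
  have hAP : ∀ y : (ZMod d)ˣ, P * y ∈ A ↔ y ∈ A := by
    intro y
    rw [hmemA, hmemA, Units.val_mul, hPv, mu_inv hF hpF, ← mul_neg, mu_inv hF hpF]
  -- invariance
  have hinv : ∀ a, α ((p : ZMod d) * a) = α a := by
    intro a
    rw [hα]
    show ∑ y ∈ A, tot ((p : ZMod d) * a) y = ∑ y ∈ A, tot a y
    symm
    refine Finset.sum_equiv (Equiv.mulLeft P) (fun y => ?_) (fun y _ => ?_)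
    · rw [Equiv.coe_mulLeft, hAP]
    · unfold tot
      refine Finset.sum_congr rfl fun e _ => ?_
      rw [Equiv.coe_mulLeft, Units.val_mul, hPv]
      have h1 : ((e : ZMod d) * ((p : ZMod d) * (y : ZMod d)) = (p : ZMod d) * a) ↔
          (e : ZMod d) * (y : ZMod d) = a := by
        rw [← hPv, mul_left_comm]
        exact Units.mul_right_inj P
      simp only [h1]
  have hinv' : ∀ (j : ℕ) a, α ((p : ZMod d) ^ j * a) = α a := by
    intro j
    induction j with
    | zero => intro a; rw [pow_zero, one_mul]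
    | succ j ih => intro a; rw [pow_succ, mul_assoc, ih, hinv]
  -- the sum over `A`
  have h1 : ((s.map fun a => (F : ℤ) * (α a - α (-a))).sum) = 0 := by
    have h2 : ∑ y ∈ A, (s.map fun a => ∑ j ∈ range F, ∑ e ∈ (core d).divisors,
      (((if (e : ZMod d) * (y : ZMod d) = (p : ZMod d) ^ j * a then 1 else 0 : ℤ)) -
        (if (e : ZMod d) * (y : ZMod d) = -((p : ZMod d) ^ j * a) then 1 else 0))).sum = 0 :=
      Finset.sum_eq_zero fun y _ => hB y
    rw [← h2]
    have h3 := Multiset.sum_map_sum_map A.val s (f := fun (y : (ZMod d)ˣ) (a : ZMod d) =>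
      ∑ j ∈ range F, ∑ e ∈ (core d).divisors,
      (((if (e : ZMod d) * (y : ZMod d) = (p : ZMod d) ^ j * a then 1 else 0 : ℤ)) -
        (if (e : ZMod d) * (y : ZMod d) = -((p : ZMod d) ^ j * a) then 1 else 0)))
    refine Eq.trans ?_ h3.symm
    congr 1
    refine Multiset.map_congr rfl fun a _ => ?_
    show (F : ℤ) * (α a - α (-a)) = ∑ y ∈ A, ∑ j ∈ range F, ∑ e ∈ (core d).divisors,
      (((if (e : ZMod d) * (y : ZMod d) = (p : ZMod d) ^ j * a then 1 else 0 : ℤ)) -
        (if (e : ZMod d) * (y : ZMod d) = -((p : ZMod d) ^ j * a) then 1 else 0))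
    rw [Finset.sum_comm]
    have h4 : ∀ j ∈ range F, ∑ y ∈ A, ∑ e ∈ (core d).divisors,
      (((if (e : ZMod d) * (y : ZMod d) = (p : ZMod d) ^ j * a then 1 else 0 : ℤ)) -
        (if (e : ZMod d) * (y : ZMod d) = -((p : ZMod d) ^ j * a) then 1 else 0)) =
        α a - α (-a) := by
      intro j _
      rw [← hinv' j a, ← hinv' j (-a), mul_neg]
      rw [hα]
      show _ = ∑ y ∈ A, tot ((p : ZMod d) ^ j * a) y - ∑ y ∈ A, tot (-((p : ZMod d) ^ j * a)) y
      rw [← Finset.sum_sub_distrib]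
      refine Finset.sum_congr rfl fun y _ => ?_
      unfold tot
      rw [← Finset.sum_sub_distrib]
    rw [Finset.sum_congr rfl h4, Finset.sum_const, Finset.card_range, nsmul_eq_mul]
  rw [Multiset.sum_map_mul_left] at h1
  have h2 : (s.map fun a => (α a - α (-a))).sum = 0 := by
    rcases mul_eq_zero.mp h1 with h5 | h5
    · exact absurd (by exact_mod_cast h5) hF.ne'
    · exact h5
  -- the parity
  have h3 : ∀ a, Full a → Odd (α a - α (-a)) := by
    intro a ha
    have h4 := tot_odd hd ha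
    have h5 : ∑ y : (ZMod d)ˣ, tot a y = α a + α (-a) := by
      rw [← Finset.sum_add_sum_compl A]
      congr 1
      rw [hα]
      show _ = ∑ y ∈ A, tot (-a) y
      refine Finset.sum_equiv (Equiv.neg _) (fun y => ?_) (fun y _ => ?_)
      · rw [Finset.mem_compl, hmemA, Equiv.neg_apply, hmemA, Units.val_neg, neg_neg]
        have := mu_ne hF hpF hneg y
        omega
      · unfold tot
        refine Finset.sum_congr rfl fun e _ => ?_
        rw [Equiv.neg_apply, Units.val_neg, mul_neg]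
        simp only [neg_inj]
    rw [h5] at h4
    have h6 : α a - α (-a) = (α a + α (-a)) - 2 * α (-a) := by ring
    rw [h6]
    exact h4.sub_even (even_two_mul _)
  have key : ∀ t : Multiset (ZMod d), (∀ a ∈ t, Full a) →
      (Even (t.map fun a => (α a - α (-a))).sum ↔ Even (Multiset.card t)) := by
    intro t
    induction t using Multiset.induction_on with
    | empty => intro _; simp
    | cons a t ih =>
      intro h
      have h4 := ih fun b hb => h b (Multiset.mem_cons_of_mem hb)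
      have h5 := h3 a (h a (Multiset.mem_cons_self a t))
      rw [← Int.not_even_iff_odd] at h5
      rw [Multiset.map_cons, Multiset.sum_cons, Int.even_add, h4, Multiset.card_cons,
        Nat.even_add_one]
      tauto
  rw [← key s hs, h2]
  exact Even.zero

end Pool.Agent.J4.H17.KE
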