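import Pool.Agent.J4.H17.KE.Defs

/-!
Distribution values as sums over units.
-/

set_option autoImplicit false

namespace Pool.Agent.J4.H17.KE

open Finset

namespace Spr

lemma rad_dvd (d : ℕ) : (∏ r ∈ d.primeFactors, r) ∣ d := Nat.prod_primeFactors_dvd d

lemma rad_mul_core (d : ℕ) : (∏ r ∈ d.primeFactors, r) * core d = d := by
  unfold core
  exact Nat.mul_div_cancel' (rad_dvd d)

lemma core_dvd (d : ℕ) : core d ∣ d := ⟨∏ r ∈ d.primeFactors, r, by
  rw [mul_comm]; exact (rad_mul_core d).symm⟩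

lemma core_ne {d : ℕ} [NeZero d] : core d ≠ 0 := by
  intro h
  have h1 := rad_mul_core d
  rw [h, mul_zero] at h1
  exact NeZero.ne d h1.symm

lemma ord {d : ℕ} [NeZero d] {e : ℕ} (he : e ∣ d) (y : ZMod d) (hy : IsUnit y) :
    addOrderOf ((e : ZMod d) * y) = d / e := by
  have h1 : addOrderOf ((e : ZMod d) * y) = addOrderOf (e : ZMod d) := by
    have hinj : Function.Injective (AddMonoidHom.mulRight y) := by
      intro a b hab
      exact hy.mul_left_injective hab
    exact addOrderOf_injective (AddMonoidHom.mulRight y) hinj (e : ZMod d)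
  rw [h1, ZMod.addOrderOf_coe _ (NeZero.ne d), Nat.gcd_eq_right he]

lemma rad_nilpotent {d : ℕ} [NeZero d] : IsNilpotent (((∏ r ∈ d.primeFactors, r : ℕ)) : ZMod d) := by
  refine ⟨d, ?_⟩
  rw [← Nat.cast_pow, ZMod.natCast_eq_zero_iff]
  have hd : d ≠ 0 := NeZero.ne d
  have h1 : (∏ r ∈ d.primeFactors, r) ^ d = ∏ r ∈ d.primeFactors, r ^ d := by
    rw [Finset.prod_pow]
  rw [h1]
  calc d = ∏ r ∈ d.primeFactors, r ^ d.factorization r :=
        (Nat.prod_factorization_pow_eq_self hd).symm
    _ ∣ ∏ r ∈ d.primeFactors, r ^ d := by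
        refine Finset.prod_dvd_prod_of_dvd _ _ fun r _ => pow_dvd_pow r ?_
        exact (Nat.factorization_lt r hd).le

lemma count {d r d' : ℕ} [NeZero d] (hr : 0 < r) (hd : r * d' = d) (z : ZMod d) (c : ℤ) :
    ∑ i ∈ range r, (if z = (i : ZMod d) * (d' : ZMod d) then c else 0) =
      if (r : ZMod d) * z = 0 then c else 0 := by
  have hd0 : d ≠ 0 := NeZero.ne d
  have hd' : 0 < d' := by
    rcases Nat.eq_zero_or_pos d' with h | h
    · rw [h, mul_zero] at hd
      exact absurd hd.symm hd0
    · exact h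
  by_cases hz : (r : ZMod d) * z = 0
  · rw [if_pos hz]
    have h1 : ((r * z.val : ℕ) : ZMod d) = 0 := by
      rw [Nat.cast_mul, ZMod.natCast_zmod_val]
      exact hz
    rw [ZMod.natCast_eq_zero_iff] at h1
    have h2 : d' ∣ z.val := by
      have h3 : r * d' ∣ r * z.val := hd.symm ▸ h1
      exact Nat.dvd_of_mul_dvd_mul_left hr h3
    obtain ⟨i0, hi0⟩ := h2
    have hlt : i0 < r := by
      have h3 : d' * i0 < d' * r := by
        rw [← hi0, mul_comm d' r]
        exact lt_of_lt_of_eq (ZMod.val_lt z) hd.symm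
      exact Nat.lt_of_mul_lt_mul_left h3
    have hzi : z = (i0 : ZMod d) * (d' : ZMod d) := by
      have h3 : ((z.val : ℕ) : ZMod d) = z := ZMod.natCast_zmod_val z
      rw [hi0, Nat.cast_mul] at h3
      rw [mul_comm]
      exact h3.symm
    rw [Finset.sum_eq_single i0, if_pos hzi]
    · intro i hi hne
      rw [if_neg]
      intro h4
      apply hne
      have hi' := mem_range.1 hi
      rw [hzi, ← Nat.cast_mul, ← Nat.cast_mul] at h4
      rw [ZMod.natCast_eq_natCast_iff] at h4
      have h5 : i0 * d' = i * d' := by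
        refine Nat.ModEq.eq_of_lt_of_lt h4 ?_ ?_
        · rw [← hd]
          exact Nat.mul_lt_mul_of_pos_right hlt hd'
        · rw [← hd]
          exact Nat.mul_lt_mul_of_pos_right hi' hd'
      exact (Nat.eq_of_mul_eq_mul_right hd' h5).symm
    · intro h
      exact absurd (mem_range.2 hlt) h
  · rw [if_neg hz]
    refine Finset.sum_eq_zero fun i _ => if_neg ?_
    rintro rfl
    apply hz
    have h1 : (r : ZMod d) * ((i : ZMod d) * (d' : ZMod d)) = (i : ZMod d) * ((r * d' : ℕ) : ZMod d) := by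
      push_cast
      ring
    rw [h1, hd, ZMod.natCast_self, mul_zero]

lemma step {d : ℕ} [NeZero d] (f : ZMod d → ℤ) (hf : Dst f) :
    ∀ e : ℕ, e ∣ core d → ∀ y0 : (ZMod d)ˣ, f ((e : ZMod d) * (y0 : ZMod d)) =
      ∑ y : (ZMod d)ˣ, if (e : ZMod d) * (y : ZMod d) = (e : ZMod d) * (y0 : ZMod d) then
        f y else 0 := by
  intro e
  induction e using Nat.strong_induction_on with
  | _ e ih =>
    intro he y0
    by_cases h1 : e = 1
    · subst h1
      simp only [Nat.cast_one, one_mul, Units.val_inj]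
      rw [Finset.sum_ite_eq' Finset.univ y0, if_pos (mem_univ _)]
    · obtain ⟨r, hr, hre⟩ := Nat.exists_prime_and_dvd h1
      obtain ⟨e', rfl⟩ := hre
      obtain ⟨t, ht⟩ := he
      set Q : ℕ := ∏ r ∈ d.primeFactors, r with hQ
      have hd : Q * core d = d := rad_mul_core d
      have hrd : r * (e' * (Q * t)) = d := by
        rw [← hd, ht]
        ring
      have he0 : e' ≠ 0 := by
        rintro rfl
        rw [mul_zero, zero_mul] at ht
        exact core_ne ht
      have hlt : e' < r * e' := by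
        have := hr.two_le
        have h2 : 0 < e' := Nat.pos_of_ne_zero he0
        nlinarith
      have he'c : e' ∣ core d := ⟨r * t, by rw [ht]; ring⟩
      have hu : ∀ i : ℕ, IsUnit ((y0 : ZMod d) + (i : ZMod d) * ((Q * t : ℕ) : ZMod d)) := by
        intro i
        have hn : IsNilpotent ((i : ZMod d) * ((Q * t : ℕ) : ZMod d)) := by
          have h2 : (i : ZMod d) * ((Q * t : ℕ) : ZMod d) = ((i * t : ℕ) : ZMod d) * (Q : ZMod d) := by
            push_cast
            ring
          rw [h2]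
          exact (Commute.all _ _).isNilpotent_mul_left rad_nilpotent
        exact IsNilpotent.isUnit_add_left_of_commute hn y0.isUnit (Commute.all _ _)
      have hi : ∀ i : ℕ, f ((e' : ZMod d) * (y0 : ZMod d) + (i : ZMod d) * ((e' * (Q * t) : ℕ) : ZMod d)) =
          ∑ y : (ZMod d)ˣ, if (e' : ZMod d) * (y : ZMod d) - (e' : ZMod d) * (y0 : ZMod d) =
            (i : ZMod d) * ((e' * (Q * t) : ℕ) : ZMod d) then f y else 0 := by
        intro i
        have h2 : (e' : ZMod d) * (y0 : ZMod d) + (i : ZMod d) * ((e' * (Q * t) : ℕ) : ZMod d) =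
            (e' : ZMod d) * ((hu i).unit : ZMod d) := by
          rw [IsUnit.unit_spec]
          push_cast
          ring
        rw [h2, ih e' hlt he'c (hu i).unit, ← h2]
        refine sum_congr rfl fun y _ => ?_
        congr 1
        rw [eq_iff_iff, sub_eq_iff_eq_add, add_comm]
      have h3 := hf r (e' * (Q * t)) hr hrd ((e' : ZMod d) * (y0 : ZMod d))
      have h4 : (r : ZMod d) * ((e' : ZMod d) * (y0 : ZMod d)) =
          ((r * e' : ℕ) : ZMod d) * (y0 : ZMod d) := by
        push_cast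
        ring
      rw [h4] at h3
      rw [← h3, Finset.sum_congr rfl fun i _ => hi i, Finset.sum_comm]
      refine sum_congr rfl fun y _ => ?_
      rw [count hr.pos hrd]
      congr 1
      rw [eq_iff_iff, mul_sub, sub_eq_zero]
      push_cast
      rw [mul_assoc, mul_assoc]

end Spr

open Spr

theorem full_form {d : ℕ} [NeZero d] (x : ZMod d) (hx : Full x) :
    ∃ e ∈ (core d).divisors, ∃ y : (ZMod d)ˣ, x = (e : ZMod d) * (y : ZMod d) := by
  obtain ⟨g, hg, u, hu, rfl⟩ := x.eq_unit_mul_divisor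
  refine ⟨g, ?_, hu.unit, ?_⟩
  · rw [Nat.mem_divisors]
    refine ⟨?_, core_ne⟩
    have h1 : addOrderOf (u * (g : ZMod d)) = d / g := by
      rw [mul_comm]
      exact ord hg u hu
    unfold Full at hx
    rw [h1] at hx
    have h2 : (∏ r ∈ d.primeFactors, r) ∣ d / g := by
      refine Finset.prod_primes_dvd _ (fun r hr => (Nat.prime_of_mem_primeFactors hr).prime) hx
    obtain ⟨t, ht⟩ := h2
    obtain ⟨c, hc⟩ := hg
    have hg0 : 0 < g := by
      rcases Nat.eq_zero_or_pos g with h | h
      · rw [h, zero_mul] at hc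
        exact absurd hc (NeZero.ne d)
      · exact h
    have h3 : d / g = c := by
      nth_rewrite 1 [hc]
      exact Nat.mul_div_cancel_left c hg0
    have hQ : 0 < ∏ r ∈ d.primeFactors, r :=
      Finset.prod_pos fun r hr => (Nat.prime_of_mem_primeFactors hr).pos
    have h4 : (∏ r ∈ d.primeFactors, r) * core d = (∏ r ∈ d.primeFactors, r) * (g * t) := by
      rw [rad_mul_core]
      nth_rewrite 1 [hc]
      rw [← h3, ht]
      ring
    exact ⟨t, Nat.eq_of_mul_eq_mul_left hQ h4⟩
  · rw [IsUnit.unit_spec, mul_comm]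

theorem form_unique {d : ℕ} [NeZero d] {e e' : ℕ} (he : e ∈ (core d).divisors)
    (he' : e' ∈ (core d).divisors) (y y' : (ZMod d)ˣ)
    (h : (e : ZMod d) * (y : ZMod d) = (e' : ZMod d) * (y' : ZMod d)) : e = e' := by
  have h1 : e ∣ d := (Nat.dvd_of_mem_divisors he).trans (core_dvd d)
  have h2 : e' ∣ d := (Nat.dvd_of_mem_divisors he').trans (core_dvd d)
  have h3 := ord h1 (y : ZMod d) y.isUnit
  have h4 := ord h2 (y' : ZMod d) y'.isUnit
  rw [h, h4] at h3
  obtain ⟨a, ha⟩ := h1
  obtain ⟨b, hb⟩ := h2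
  have hd0 : 0 < d := Nat.pos_of_ne_zero (NeZero.ne d)
  have he0 : 0 < e := Nat.pos_of_mem_divisors he
  have he0' : 0 < e' := Nat.pos_of_mem_divisors he'
  have h5 : d / e = a := by
    nth_rewrite 1 [ha]
    exact Nat.mul_div_cancel_left a he0
  have h6 : d / e' = b := by
    nth_rewrite 1 [hb]
    exact Nat.mul_div_cancel_left b he0'
  have hab : a = b := by rw [← h5, ← h6]; exact h3.symm
  have ha0 : 0 < a := by
    rcases Nat.eq_zero_or_pos a with h | h
    · rw [h, mul_zero] at ha
      omega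
    · exact h
  refine Nat.eq_of_mul_eq_mul_right ha0 ?_
  rw [← ha, hab, ← hb]

theorem spread {d : ℕ} [NeZero d] (f : ZMod d → ℤ) (hf : Dst f) (x : ZMod d) (hx : Full x) :
    f x = ∑ y : (ZMod d)ˣ, ∑ e ∈ (core d).divisors,
      if (e : ZMod d) * (y : ZMod d) = x then f y else 0 := by
  obtain ⟨e0, he0, y0, rfl⟩ := full_form x hx
  rw [step f hf e0 (Nat.dvd_of_mem_divisors he0) y0]
  refine sum_congr rfl fun y _ => ?_
  rw [Finset.sum_eq_single e0]
  · intro e he hne
    rw [if_neg]
    intro h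
    exact hne (form_unique he he0 y y0 h)
  · intro h
    exact absurd he0 h

end Pool.Agent.J4.H17.KE
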