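import Pool.Agent.J4.H17.KE.Tst
import Pool.Agent.J4.H17.KE.Ext1
import Pool.Agent.J4.H17.KE.Ext
import Pool.Agent.J4.H17.KE.Spr
import Pool.Agent.J4.H17.KE.Hole
import Pool.Agent.J4.H17.KE.Par

/-!
The local theorem: full support.
-/

set_option autoImplicit false
set_option linter.unusedSectionVars false

namespace Pool.Agent.J4.H17.KE

open Finset

variable {d p F : ℕ}

/-- the functional of a multiset -/
def Lam (p F : ℕ) {d : ℕ} (s : Multiset (ZMod d)) (f : ZMod d → ℤ) : ℤ :=
  (s.map fun a => ∑ j ∈ range F, (f ((p : ZMod d) ^ j * a) - f (-((p : ZMod d) ^ j * a)))).sum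

/-- the multiplicity of a unit -/
noncomputable def BB (p F : ℕ) {d : ℕ} (s : Multiset (ZMod d)) (y : ZMod d) : ℤ :=
  (s.map fun a => ∑ j ∈ range F, ∑ e ∈ (core d).divisors,
      (((if (e : ZMod d) * y = (p : ZMod d) ^ j * a then 1 else 0 : ℤ)) -
        (if (e : ZMod d) * y = -((p : ZMod d) ^ j * a) then 1 else 0))).sum

lemma full_unit_mul {x : ZMod d} {u : ZMod d} (hu : IsUnit u) : Full (u * x) ↔ Full x := by
  obtain ⟨u, rfl⟩ := hu
  have h3 : ∀ k : ℕ, k • ((u : ZMod d) * x) = 0 ↔ k • x = 0 := by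
    intro k
    rw [nsmul_eq_mul, nsmul_eq_mul, mul_left_comm]
    exact u.isUnit.mul_right_eq_zero
  have h4 : addOrderOf ((u : ZMod d) * x) = addOrderOf x := by
    apply Nat.dvd_antisymm
    · rw [addOrderOf_dvd_iff_nsmul_eq_zero, h3]
      exact addOrderOf_nsmul_eq_zero _
    · rw [addOrderOf_dvd_iff_nsmul_eq_zero, ← h3]
      exact addOrderOf_nsmul_eq_zero _
  unfold Full
  rw [h4]

lemma full_neg {x : ZMod d} : Full (-x) ↔ Full x := by
  have h := full_unit_mul (x := x) (u := -1) (isUnit_one.neg)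
  rwa [neg_one_mul] at h

lemma sum_multiset_comm {α ι : Type*} (s : Multiset α) (t : Finset ι) (g : α → ι → ℤ) :
    (s.map fun a => ∑ i ∈ t, g a i).sum = ∑ i ∈ t, (s.map fun a => g a i).sum := by
  induction s using Multiset.induction_on with
  | empty => simp
  | cons a s ih =>
    simp only [Multiset.map_cons, Multiset.sum_cons, ih, sum_add_distrib]

/-- the functional on a test function -/
lemma Lam_tst (s : Multiset (ZMod d)) (w : ℕ → ZMod d) (z : ZMod d) :
    Lam p F s (tst w z) = ∑ T ∈ d.primeFactors.powerset,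
      (-1) ^ T.card * BB p F s ((∏ r ∈ T, w r) * z) := by
  unfold Lam BB tst
  have h1 : ∀ T ∈ d.primeFactors.powerset, (-1 : ℤ) ^ T.card * (s.map fun a => ∑ j ∈ range F,
      ∑ e ∈ (core d).divisors,
      (((if (e : ZMod d) * ((∏ r ∈ T, w r) * z) = (p : ZMod d) ^ j * a then 1 else 0 : ℤ)) -
        (if (e : ZMod d) * ((∏ r ∈ T, w r) * z) = -((p : ZMod d) ^ j * a) then 1 else 0))).sum =
      (s.map fun a => ∑ j ∈ range F, ∑ e ∈ (core d).divisors, (-1 : ℤ) ^ T.card *
      (((if (e : ZMod d) * ((∏ r ∈ T, w r) * z) = (p : ZMod d) ^ j * a then 1 else 0 : ℤ)) -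
        (if (e : ZMod d) * ((∏ r ∈ T, w r) * z) = -((p : ZMod d) ^ j * a) then 1 else 0))).sum := by
    intro T _
    rw [← Multiset.sum_map_mul_left]
    congr 1
    refine Multiset.map_congr rfl fun a _ => ?_
    rw [mul_sum]
    exact sum_congr rfl fun j _ => by rw [mul_sum]
  rw [sum_congr rfl h1, ← sum_multiset_comm]
  congr 1
  refine Multiset.map_congr rfl fun a _ => ?_
  rw [sum_comm]
  refine sum_congr rfl fun j _ => ?_
  simp only [mul_sub, sum_sub_distrib]
  congr 1 <;> exact sum_comm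

/-- the functional vanishes if all multiplicities do -/
lemma Lam_zero [NeZero d] (hp : p.Coprime d) (s : Multiset (ZMod d)) (hs : ∀ a ∈ s, Full a)
    (hB : ∀ y : (ZMod d)ˣ, BB p F s y = 0) (f : ZMod d → ℤ) (hf : Dst f) : Lam p F s f = 0 := by
  have hu : IsUnit (p : ZMod d) := (ZMod.isUnit_iff_coprime p d).mpr hp
  have h1 : Lam p F s f = (s.map fun a => ∑ j ∈ range F, ∑ y : (ZMod d)ˣ,
      ∑ e ∈ (core d).divisors, (((if (e : ZMod d) * (y : ZMod d) = (p : ZMod d) ^ j * a then 1 else 0 : ℤ)) -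
        (if (e : ZMod d) * (y : ZMod d) = -((p : ZMod d) ^ j * a) then 1 else 0)) * f y).sum := by
    unfold Lam
    congr 1
    refine Multiset.map_congr rfl fun a ha => sum_congr rfl fun j _ => ?_
    have ha' := hs a ha
    have h2 : Full ((p : ZMod d) ^ j * a) := (full_unit_mul (hu.pow j)).mpr ha'
    rw [spread f hf _ h2, spread f hf _ (full_neg.mpr h2), ← sum_sub_distrib]
    refine sum_congr rfl fun y _ => ?_
    rw [← sum_sub_distrib]
    refine sum_congr rfl fun e _ => ?_
    split_ifs <;> ring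
  rw [h1]
  have h2 : (s.map fun a => ∑ j ∈ range F, ∑ y : (ZMod d)ˣ,
      ∑ e ∈ (core d).divisors, (((if (e : ZMod d) * (y : ZMod d) = (p : ZMod d) ^ j * a then 1 else 0 : ℤ)) -
        (if (e : ZMod d) * (y : ZMod d) = -((p : ZMod d) ^ j * a) then 1 else 0)) * f y).sum =
      ∑ y : (ZMod d)ˣ, BB p F s y * f y := by
    have h3 : ∀ y : (ZMod d)ˣ, BB p F s y * f y = (s.map fun a => ∑ j ∈ range F,
        ∑ e ∈ (core d).divisors, (((if (e : ZMod d) * (y : ZMod d) = (p : ZMod d) ^ j * a then 1 else 0 : ℤ)) -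
        (if (e : ZMod d) * (y : ZMod d) = -((p : ZMod d) ^ j * a) then 1 else 0)) * f y).sum := by
      intro y
      unfold BB
      rw [← Multiset.sum_map_mul_right]
      congr 1
      refine Multiset.map_congr rfl fun a _ => ?_
      rw [sum_mul]
      exact sum_congr rfl fun j _ => by rw [sum_mul]
    rw [sum_congr rfl fun y _ => h3 y, ← sum_multiset_comm]
    congr 1
    refine Multiset.map_congr rfl fun a _ => ?_
    rw [sum_comm]
  rw [h2]
  exact sum_eq_zero fun y _ => by rw [hB y, zero_mul]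

/-- **The local theorem.** -/
theorem local_thm [NeZero d] (hd : Odd d) (hp : p.Coprime d) (hF : 0 < F)
    (hpF : (p : ZMod d) ^ F = 1) (s : Multiset (ZMod d)) (hs : ∀ a ∈ s, Full a)
    (hK : ∀ r ∈ d.primeFactors, Multiset.card s * (sp p r).ncard < r - 1)
    (htest : ∀ f : ZMod d → ℤ, Dst f → (∀ x, ¬ Full x → f x = 0) → Lam p F s f = 0) :
    (∀ f : ZMod d → ℤ, Dst f → Lam p F s f = 0) ∧
      ((¬ ∃ j : ℕ, (∏ r ∈ d.primeFactors, r) ∣ p ^ j + 1) → Even (Multiset.card s)) := by
  have hB : ∀ y : (ZMod d)ˣ, BB p F s y = 0 := by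
    intro y
    obtain ⟨w, hw, hw1, hT⟩ := holes hp s hs hK (y : ZMod d) y.isUnit
    have h1 := htest (tst w (y : ZMod d)) (tst_dst w _ y.isUnit hw hw1)
      (fun x hx => tst_full w _ y.isUnit hw x hx)
    rw [Lam_tst, Finset.sum_eq_single ∅] at h1
    · rw [card_empty, pow_zero, one_mul, prod_empty, one_mul] at h1
      exact h1
    · intro T hT1 hT2
      have h2 : BB p F s ((∏ r ∈ T, w r) * (y : ZMod d)) = 0 := by
        unfold BB
        have h3 : (s.map fun a => ∑ j ∈ range F, ∑ e ∈ (core d).divisors,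
            (((if (e : ZMod d) * ((∏ r ∈ T, w r) * (y : ZMod d)) = (p : ZMod d) ^ j * a then 1 else 0 : ℤ)) -
              (if (e : ZMod d) * ((∏ r ∈ T, w r) * (y : ZMod d)) = -((p : ZMod d) ^ j * a) then 1 else 0))) =
            s.map fun _ => (0 : ℤ) := by
          refine Multiset.map_congr rfl fun a ha => ?_
          refine sum_eq_zero fun j _ => sum_eq_zero fun e he => ?_
          obtain ⟨h4, h5⟩ := hT T (mem_powerset.mp hT1) (Finset.nonempty_iff_ne_empty.mpr hT2) a ha e he j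
          rw [if_neg h4, if_neg h5, sub_zero]
        rw [h3]
        simp
      rw [h2, mul_zero]
    · intro h
      exact absurd (mem_powerset.mpr (empty_subset _)) h
  refine ⟨fun f hf => Lam_zero hp s hs hB f hf, fun hneg => ?_⟩
  exact par hd hp hF hpF s hs hneg hB

end Pool.Agent.J4.H17.KE
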