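import Pool.Agent.J4.H17.KE.Local
import Pool.Agent.J4.H17.KB.Par

/-!
The projection to a factor of the modulus prime to its cofactor.
-/

set_option autoImplicit false
set_option linter.unusedSectionVars false

namespace Pool.Agent.J4.H17.KE

open Finset Pool.Agent.H916R2

variable {d E m p : ℕ}

lemma pr_eq [NeZero m] (h : d ∣ m) (x : ZMod m) : pr d x = ZMod.castHom h (ZMod d) x := by
  unfold pr
  rw [ZMod.natCast_val, ZMod.castHom_apply]

lemma pr_add [NeZero m] (h : d ∣ m) (x y : ZMod m) : pr d (x + y) = pr d x + pr d y := by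
  rw [pr_eq h, pr_eq h, pr_eq h, map_add]

lemma pr_neg [NeZero m] (h : d ∣ m) (x : ZMod m) : pr d (-x) = -pr d x := by
  rw [pr_eq h, pr_eq h, map_neg]

lemma pr_mul [NeZero m] (h : d ∣ m) (x y : ZMod m) : pr d (x * y) = pr d x * pr d y := by
  rw [pr_eq h, pr_eq h, pr_eq h, map_mul]

lemma pr_natCast [NeZero m] (h : d ∣ m) (n : ℕ) : pr d (n : ZMod m) = n := by
  rw [pr_eq h, map_natCast]

lemma pr_pow_mul [NeZero m] (h : d ∣ m) (j : ℕ) (x : ZMod m) :
    pr d ((p : ZMod m) ^ j * x) = (p : ZMod d) ^ j * pr d x := by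
  rw [pr_eq h, pr_eq h, map_mul, map_pow, map_natCast]

lemma pr_zero [NeZero m] (h : d ∣ m) : pr d (0 : ZMod m) = 0 := by
  rw [pr_eq h, map_zero]

/-- the order of the projection divides the order -/
lemma order_pr [NeZero m] (h : d ∣ m) (x : ZMod m) : addOrderOf (pr d x) ∣ addOrderOf x := by
  rw [addOrderOf_dvd_iff_nsmul_eq_zero, pr_eq h, ← map_nsmul, addOrderOf_nsmul_eq_zero, map_zero]

/-- joint injectivity -/
lemma pr_inj [NeZero m] (hm : d * E = m) (hc : d.Coprime E) {x y : ZMod m}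
    (h1 : pr d x = pr d y) (h2 : pr E x = pr E y) : x = y := by
  unfold pr at h1 h2
  have e1 : x.val ≡ y.val [MOD d] := (ZMod.natCast_eq_natCast_iff _ _ _).mp h1
  have e2 : x.val ≡ y.val [MOD E] := (ZMod.natCast_eq_natCast_iff _ _ _).mp h2
  have e3 : x.val ≡ y.val [MOD d * E] := (Nat.modEq_and_modEq_iff_modEq_mul hc).mp ⟨e1, e2⟩
  rw [hm] at e3
  apply ZMod.val_injective
  exact Nat.ModEq.eq_of_lt_of_lt e3 (ZMod.val_lt x) (ZMod.val_lt y)

/-- elements whose order divides `d` -/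
lemma pr_cofactor [NeZero m] (hm : d * E = m) {x : ZMod m} (hx : addOrderOf x ∣ d) :
    pr E x = 0 := by
  have hd : 0 < d := Nat.pos_of_ne_zero (by rintro rfl; rw [zero_mul] at hm; exact NeZero.ne m hm.symm)
  have h1 : ((d * x.val : ℕ) : ZMod m) = 0 := by
    push_cast
    rw [ZMod.natCast_zmod_val, ← nsmul_eq_mul]
    obtain ⟨c, hc⟩ := hx
    rw [hc, mul_comm, mul_nsmul', addOrderOf_nsmul_eq_zero, nsmul_zero]
  rw [ZMod.natCast_eq_zero_iff] at h1
  have h3 : d * E ∣ d * x.val := by rw [hm]; exact h1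
  have h2 : E ∣ x.val := Nat.dvd_of_mul_dvd_mul_left hd h3
  unfold pr
  exact (ZMod.natCast_eq_zero_iff _ _).mpr h2

lemma order_of_pr [NeZero m] (hm : d * E = m) (hc : d.Coprime E) {x : ZMod m}
    (hx : pr E x = 0) : addOrderOf x = addOrderOf (pr d x) := by
  have hdm : d ∣ m := ⟨E, hm.symm⟩
  have hEm : E ∣ m := ⟨d, by rw [← hm, mul_comm]⟩
  apply Nat.dvd_antisymm _ (order_pr hdm x)
  rw [addOrderOf_dvd_iff_nsmul_eq_zero]
  apply pr_inj hm hc
  · rw [pr_eq hdm, map_nsmul, ← pr_eq hdm, addOrderOf_nsmul_eq_zero, pr_zero hdm]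
  · rw [pr_eq hEm, map_nsmul, ← pr_eq hEm, hx, nsmul_zero, pr_zero hEm]

/-- the section -/
lemma iota_pr [NeZero m] [NeZero d] (hm : d * E = m) (hc : d.Coprime E) {x : ZMod m}
    (hx : pr E x = 0) (u : (ZMod d)ˣ) (hu : (u : ZMod d) * (E : ZMod d) = 1) :
    (iota E ((u : ZMod d) * pr d x) : ZMod m) = x := by
  have hdm : d ∣ m := ⟨E, hm.symm⟩
  have hEm : E ∣ m := ⟨d, by rw [← hm, mul_comm]⟩
  apply pr_inj hm hc
  · unfold iota
    rw [pr_natCast hdm]
    push_cast
    rw [ZMod.natCast_zmod_val, ← mul_assoc, mul_comm (E : ZMod d), hu, one_mul]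
  · unfold iota
    rw [pr_natCast hEm, hx]
    push_cast
    rw [ZMod.natCast_self, zero_mul]

lemma Dst.comp_iota [NeZero m] [NeZero d] (hm : d * E = m) {c : ZMod m → ℤ} (hc : Dst c) :
    Dst (fun b : ZMod d => c (iota E b)) := by
  have h : E * d = m := by rw [mul_comm]; exact hm
  intro q d' hq hqd a
  have h1 := hc q (E * d') hq (by rw [← h, ← hqd]; ring) (iota E a)
  show ∑ i ∈ range q, c (iota E (a + (i : ZMod d) * (d' : ZMod d))) = c (iota E ((q : ZMod d) * a))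
  rw [iota_natMul h, ← h1]
  refine sum_congr rfl fun i _ => ?_
  congr 1
  rw [iota_add h]
  congr 1
  have : (i : ZMod d) * (d' : ZMod d) = ((i * d' : ℕ) : ZMod d) := by push_cast; rfl
  rw [this, iota_natCast h]
  push_cast; ring

lemma dst_iff {c : ZMod m → ℤ} : Dst c ↔ KB.Dst c := Iff.rfl

end Pool.Agent.J4.H17.KE
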