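import Pool.Agent.J4.H17.KE.Defs

/-!
The test function of a unit is a distribution (piece TST).
-/

set_option autoImplicit false

namespace Pool.Agent.J4.H17.KE

open Finset

namespace Tst

theorem core_mul (d : ℕ) : core d * ∏ r ∈ d.primeFactors, r = d :=
  Nat.div_mul_cancel (Nat.prod_primeFactors_dvd d)

theorem core_ne {d : ℕ} (hd : d ≠ 0) : core d ≠ 0 := by
  intro h
  have := core_mul d
  rw [h, zero_mul] at this
  exact hd this.symm

theorem unit_prod {d : ℕ} {w : ℕ → ZMod d} (hw : ∀ r ∈ d.primeFactors, IsUnit (w r))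
    {T : Finset ℕ} (hT : T ⊆ d.primeFactors) : IsUnit (∏ r ∈ T, w r) :=
  IsUnit.prod_iff.2 fun r hr => hw r (hT hr)

/-- the `q`-valuation of the core -/
theorem core_fac {d q : ℕ} (hd : d ≠ 0) (hq : q ∈ d.primeFactors) :
    (core d).factorization q + 1 = d.factorization q := by
  have hqp : q.Prime := Nat.prime_of_mem_primeFactors hq
  have hr0 : (∏ r ∈ d.primeFactors, r) ≠ 0 :=
    Finset.prod_ne_zero_iff.2 fun r hr => (Nat.prime_of_mem_primeFactors hr).ne_zero
  have h1 := congrArg (fun n => Nat.factorization n q) (core_mul d)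
  simp only [Nat.factorization_mul (core_ne hd) hr0, Finsupp.add_apply] at h1
  have h2 : (∏ r ∈ d.primeFactors, r).factorization q = 1 := by
    rw [Nat.factorization_prod fun r hr => (Nat.prime_of_mem_primeFactors hr).ne_zero,
      Finsupp.finsetSum_apply, Finset.sum_eq_single q]
    · exact Nat.Prime.factorization_self hqp
    · intro r hr hrq
      rw [Nat.Prime.factorization (Nat.prime_of_mem_primeFactors hr)]
      exact Finsupp.single_eq_of_ne (by first | exact hrq | exact hrq.symm)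
    · intro h
      exact absurd hq h
  omega

/-- if `e` divides the core and `q e` does not, then `q ^ v` divides `q e` -/
theorem pow_dvd {d q e : ℕ} (hd : d ≠ 0) (hq : q ∈ d.primeFactors) (he : e ∣ core d)
    (hqe : ¬ q * e ∣ core d) : q ^ d.factorization q ∣ q * e := by
  have hqp : q.Prime := Nat.prime_of_mem_primeFactors hq
  have hc0 := core_ne hd
  have he0 : e ≠ 0 := fun h => hc0 (Nat.eq_zero_of_zero_dvd (h ▸ he))
  have h1 : (core d).factorization q ≤ e.factorization q := by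
    by_contra hcon
    push Not at hcon
    apply hqe
    obtain ⟨k, hk⟩ := he
    have hk0 : k ≠ 0 := by
      rintro rfl
      exact hc0 (by rw [hk, mul_zero])
    have h2 : (core d).factorization q = e.factorization q + k.factorization q := by
      rw [hk, Nat.factorization_mul he0 hk0]
      rfl
    have h3 : q ∣ k := by
      by_contra hqk
      have := Nat.factorization_eq_zero_of_not_dvd hqk
      omega
    obtain ⟨l, rfl⟩ := h3
    exact ⟨l, by rw [hk]; ring⟩
  have h4 : q ^ (core d).factorization q ∣ e :=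
    (pow_dvd_pow q h1).trans (Nat.ordProj_dvd e q)
  rw [← core_fac hd hq, pow_succ, mul_comm]
  exact mul_dvd_mul_left q h4

/-- the elements killed by `q` -/
theorem sum_ind {d q d' : ℕ} [NeZero d] (hqd : q * d' = d) (u a : ZMod d) :
    ∑ i ∈ range q, (if u = a + (i : ZMod d) * (d' : ZMod d) then (1 : ℤ) else 0) =
      if (q : ZMod d) * u = (q : ZMod d) * a then 1 else 0 := by
  have hd0 : d ≠ 0 := NeZero.ne d
  have hq0 : 0 < q := Nat.pos_of_ne_zero (by rintro rfl; exact hd0 (by rw [← hqd, zero_mul]))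
  have hd'0 : 0 < d' := Nat.pos_of_ne_zero (by rintro rfl; exact hd0 (by rw [← hqd, mul_zero]))
  have hz : (q : ZMod d) * (d' : ZMod d) = 0 := by
    rw [← Nat.cast_mul, hqd, ZMod.natCast_self]
  by_cases h : (q : ZMod d) * u = (q : ZMod d) * a
  · rw [if_pos h]
    -- the element
    have h1 : (q : ZMod d) * (u - a) = 0 := by rw [mul_sub, h, sub_self]
    have h2 : ((q * (u - a).val : ℕ) : ZMod d) = 0 := by
      rw [Nat.cast_mul, ZMod.natCast_zmod_val]
      exact h1
    rw [ZMod.natCast_eq_zero_iff] at h2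
    have h2' : q * d' ∣ q * (u - a).val := by rw [hqd]; exact h2
    obtain ⟨i, hi⟩ := Nat.dvd_of_mul_dvd_mul_left hq0 h2'
    have hv : (u - a).val < d := ZMod.val_lt _
    have hiq : i < q := by
      rw [hi, ← hqd, mul_comm q d'] at hv
      exact lt_of_mul_lt_mul_left hv (Nat.zero_le _)
    have hu : u = a + (i : ZMod d) * (d' : ZMod d) := by
      have h3 : (((u - a).val : ℕ) : ZMod d) = u - a := ZMod.natCast_zmod_val _
      rw [hi, Nat.cast_mul] at h3
      rw [mul_comm (i : ZMod d), h3]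
      ring
    rw [Finset.sum_eq_single i]
    · rw [if_pos hu]
    · intro j hj hji
      rw [if_neg]
      intro hj2
      apply hji
      rw [hu] at hj2
      have h4 : ((i * d' : ℕ) : ZMod d) = ((j * d' : ℕ) : ZMod d) := by
        rw [Nat.cast_mul, Nat.cast_mul]
        exact add_left_cancel hj2
      rw [ZMod.natCast_eq_natCast_iff'] at h4
      have h5 : i * d' < d := by rw [← hqd]; exact Nat.mul_lt_mul_of_pos_right hiq hd'0
      have h6 : j * d' < d := by
        rw [← hqd]; exact Nat.mul_lt_mul_of_pos_right (Finset.mem_range.1 hj) hd'0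
      rw [Nat.mod_eq_of_lt h5, Nat.mod_eq_of_lt h6] at h4
      exact (Nat.eq_of_mul_eq_mul_right hd'0 h4).symm
    · intro hi2
      exact absurd (Finset.mem_range.2 hiq) hi2
  · rw [if_neg h]
    refine Finset.sum_eq_zero fun i _ => ?_
    rw [if_neg]
    rintro rfl
    apply h
    rw [mul_add]
    have : (q : ZMod d) * ((i : ZMod d) * (d' : ZMod d)) = 0 := by
      rw [mul_left_comm, hz, mul_zero]
    rw [this, add_zero]

/-- the inner sum -/
def FF {d : ℕ} (w : ℕ → ZMod d) (z b : ZMod d) (e : ℕ) : ℤ :=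
  ∑ T ∈ d.primeFactors.powerset,
    (-1) ^ T.card * (if (e : ZMod d) * ((∏ r ∈ T, w r) * z) = b then 1 else 0)

/-- cancellation of the pairs `T`, `T ∪ {q}` -/
theorem FF_zero {d : ℕ} (w : ℕ → ZMod d) (z b : ZMod d) (e q : ℕ) (hq : q ∈ d.primeFactors)
    (h : (e : ZMod d) * w q = (e : ZMod d)) : FF w z b e = 0 := by
  unfold FF
  obtain ⟨S, hqS, hS⟩ : ∃ S : Finset ℕ, q ∉ S ∧ d.primeFactors = insert q S :=
    ⟨d.primeFactors.erase q, Finset.notMem_erase q _, (Finset.insert_erase hq).symm⟩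
  rw [hS, Finset.sum_powerset_insert hqS, ← Finset.sum_add_distrib]
  refine Finset.sum_eq_zero fun T hT => ?_
  have hqT : q ∉ T := fun h' => hqS (Finset.mem_powerset.1 hT h')
  rw [Finset.card_insert_of_notMem hqT, Finset.prod_insert hqT]
  have h1 : (e : ZMod d) * (w q * (∏ r ∈ T, w r) * z) = (e : ZMod d) * ((∏ r ∈ T, w r) * z) := by
    rw [mul_assoc, ← mul_assoc, h]
  rw [h1, pow_succ]
  ring

end Tst

open Tst in
theorem tst_dst {d : ℕ} [NeZero d] (w : ℕ → ZMod d) (z : ZMod d) (hz : IsUnit z)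
    (hw : ∀ r ∈ d.primeFactors, IsUnit (w r))
    (hw1 : ∀ r ∈ d.primeFactors, ((r ^ d.factorization r : ℕ) : ZMod d) * (w r - 1) = 0) :
    Dst (tst w z) := by
  intro q d' hq hqd a
  have hd0 : d ≠ 0 := NeZero.ne d
  have hqS : q ∈ d.primeFactors := Nat.mem_primeFactors.2 ⟨hq, ⟨d', hqd.symm⟩, hd0⟩
  have hd'0 : 0 < d' := Nat.pos_of_ne_zero (by rintro rfl; exact hd0 (by rw [← hqd, mul_zero]))
  have hc0 := core_ne hd0
  have hzz : (q : ZMod d) * (d' : ZMod d) = 0 := by
    rw [← Nat.cast_mul, hqd, ZMod.natCast_self]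
  -- the left side
  have hL : ∑ i ∈ range q, tst w z (a + (i : ZMod d) * (d' : ZMod d)) =
      ∑ e ∈ (core d).divisors, FF w z ((q : ZMod d) * a) (q * e) := by
    unfold tst
    rw [Finset.sum_comm]
    refine Finset.sum_congr rfl fun e _ => ?_
    rw [Finset.sum_comm]
    unfold FF
    refine Finset.sum_congr rfl fun T _ => ?_
    rw [← Finset.mul_sum, sum_ind hqd]
    congr 1
    rw [Nat.cast_mul, mul_assoc]
  have hR : tst w z ((q : ZMod d) * a) =
      ∑ e ∈ (core d).divisors, FF w z ((q : ZMod d) * a) e := rfl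
  rw [hL, hR]
  -- vanishing
  have hF1 : ∀ e : ℕ, ¬ q ∣ e → FF w z ((q : ZMod d) * a) e = 0 := by
    intro e he
    refine Finset.sum_eq_zero fun T hT => ?_
    rw [if_neg, mul_zero]
    intro h
    apply he
    have hu : IsUnit ((∏ r ∈ T, w r) * z) := (unit_prod hw (Finset.mem_powerset.1 hT)).mul hz
    have h1 : ((d' * e : ℕ) : ZMod d) * ((∏ r ∈ T, w r) * z) = 0 := by
      rw [Nat.cast_mul, mul_assoc, h, ← mul_assoc, mul_comm (d' : ZMod d), hzz, zero_mul]
    have h2 : ((d' * e : ℕ) : ZMod d) = 0 := by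
      rwa [hu.mul_left_eq_zero] at h1
    rw [ZMod.natCast_eq_zero_iff, ← hqd, mul_comm q d'] at h2
    exact Nat.dvd_of_mul_dvd_mul_left hd'0 h2
  have hF2 : ∀ e : ℕ, e ∣ core d → ¬ q * e ∣ core d →
      FF w z ((q : ZMod d) * a) (q * e) = 0 := by
    intro e he hqe
    apply FF_zero w z _ _ q hqS
    obtain ⟨k, hk⟩ := pow_dvd hd0 hqS he hqe
    have h1 := hw1 q hqS
    rw [hk, Nat.cast_mul, mul_right_comm]
    rw [mul_sub, mul_one, sub_eq_zero] at h1
    rw [h1]
  rw [← Finset.sum_filter_of_ne (s := (core d).divisors) (p := fun e => q * e ∣ core d)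
    (fun e he h => by
      by_contra hcon
      exact h (hF2 e (Nat.dvd_of_mem_divisors he) hcon))]
  rw [← Finset.sum_filter_of_ne (s := (core d).divisors) (p := fun e => q ∣ e)
    (f := fun e => FF w z ((q : ZMod d) * a) e)
    (fun e he h => by
      by_contra hcon
      exact h (hF1 e hcon))]
  refine Finset.sum_bij (fun e _ => q * e) ?_ ?_ ?_ ?_
  · intro e he
    rw [Finset.mem_filter] at he ⊢
    exact ⟨Nat.mem_divisors.2 ⟨he.2, hc0⟩, dvd_mul_right q e⟩
  · intro e _ e' _ h
    exact Nat.eq_of_mul_eq_mul_left hq.pos h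
  · intro e he
    rw [Finset.mem_filter] at he
    obtain ⟨he1, k, rfl⟩ := he
    have h1 := Nat.dvd_of_mem_divisors he1
    exact ⟨k, Finset.mem_filter.2 ⟨Nat.mem_divisors.2 ⟨(dvd_mul_left k q).trans h1, hc0⟩, h1⟩, rfl⟩
  · intro e _
    rfl

open Tst in
theorem tst_full {d : ℕ} [NeZero d] (w : ℕ → ZMod d) (z : ZMod d) (hz : IsUnit z)
    (hw : ∀ r ∈ d.primeFactors, IsUnit (w r)) (x : ZMod d) (hx : ¬ Full x) : tst w z x = 0 := by
  unfold tst
  refine Finset.sum_eq_zero fun e he => Finset.sum_eq_zero fun T hT => ?_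
  rw [if_neg, mul_zero]
  rintro rfl
  apply hx
  intro r hr
  have hd0 : d ≠ 0 := NeZero.ne d
  have hu : IsUnit ((∏ r ∈ T, w r) * z) := (unit_prod hw (Finset.mem_powerset.1 hT)).mul hz
  obtain ⟨k, hk⟩ := Nat.dvd_of_mem_divisors he
  have he0 : 0 < e := Nat.pos_of_mem_divisors he
  set n := addOrderOf ((e : ZMod d) * ((∏ r ∈ T, w r) * z)) with hn
  have h1 : n • ((e : ZMod d) * ((∏ r ∈ T, w r) * z)) = 0 := addOrderOf_nsmul_eq_zero _
  rw [nsmul_eq_mul, ← mul_assoc, hu.mul_left_eq_zero, ← Nat.cast_mul,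
    ZMod.natCast_eq_zero_iff] at h1
  have h2 : e * (k * ∏ r ∈ d.primeFactors, r) ∣ e * n := by
    have h3 : e * (k * ∏ r ∈ d.primeFactors, r) = d := by
      rw [← mul_assoc, ← hk, core_mul]
    rw [h3, mul_comm e n]
    exact h1
  have h4 := Nat.dvd_of_mul_dvd_mul_left he0 h2
  exact (Finset.dvd_prod_of_mem _ hr).trans ((dvd_mul_left _ k).trans h4)

end Pool.Agent.J4.H17.KE
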